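import Pool.Agent.Q203.PZ.PoleK
import Pool.Agent.H312R3.M34.Arch

/-!
# The archimedean part near the hyperplane, with explicit constants, for all `n`
-/

open Polynomial Pool.Agent.H337R2 Pool.Agent.ZF Filter Topology

namespace Pool.Agent.Q203.PZ

noncomputable section

set_option autoImplicit false

open G4 (Lin Lin_monic Lin_deg Lin_norm qG_norm)

lemma prod_line {n : ℕ} (hn : 1 ≤ n) (N b : ℕ) (hb : b ≤ 8) (y : ℝ) :
    (∏ i ∈ Finset.range b, (‖aeval (zl y) (QB n i)‖ ^ 2) ^ (sN i * N)) * 2 ^ (tN b * N) ≤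
      (n : ℝ) ^ (4 * (ho b * N)) * FXpG ((y / n) ^ 2) ^ N := by
  have hv : 0 ≤ (y / n) ^ 2 := by positivity
  have h2 : (∏ i ∈ Finset.range b, (‖aeval (zl y) (QB n i)‖ ^ 2) ^ (sN i * N)) = (n : ℝ) ^ (4 * (ho b * N)) *
        (∏ i ∈ Finset.range b, |((hR i : ℚ) : ℝ) - (y / n) ^ 2| ^ (2 * sN i)) ^ N := by
    have : ∀ i ∈ Finset.range b, (‖aeval (zl y) (QB n i)‖ ^ 2) ^ (sN i * N) =
        ((n : ℝ) ^ (4 * N)) ^ sN i * (|((hR i : ℚ) : ℝ) - (y / n) ^ 2| ^ (2 * sN i)) ^ N := by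
      intro i _
      unfold QB
      rw [qG_norm hn, mul_pow, mul_pow, ← pow_mul, ← pow_mul, ← pow_mul, ← pow_mul, ← pow_mul]
      congr 2
      · ring
      · ring
    rw [Finset.prod_congr rfl this, Finset.prod_mul_distrib, Finset.prod_pow,
      Finset.prod_pow_eq_pow_sum, ← pow_mul]
    unfold ho
    congr 2
    ring
  have hG : 0 ≤ ∏ i ∈ Finset.range b, |((hR i : ℚ) : ℝ) - (y / n) ^ 2| ^ (2 * sN i) :=
    Finset.prod_nonneg fun i _ => by positivity
  have h3 := cert b hb ((y / n) ^ 2) hv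
  have h4 := pow_le_pow_left₀ (by positivity) h3 N
  rw [mul_pow, ← pow_mul] at h4
  rw [h2]
  calc (n : ℝ) ^ (4 * (ho b * N)) *
        (∏ i ∈ Finset.range b, |((hR i : ℚ) : ℝ) - (y / n) ^ 2| ^ (2 * sN i)) ^ N *
        2 ^ (tN b * N)
      = (n : ℝ) ^ (4 * (ho b * N)) * (2 ^ (tN b * N) *
        (∏ i ∈ Finset.range b, |((hR i : ℚ) : ℝ) - (y / n) ^ 2| ^ (2 * sN i)) ^ N) := by
        ring
    _ ≤ _ := mul_le_mul_of_nonneg_left h4 (by positivity)

/-- the estimate of `G1r` -/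
def Hyp (C : ℝ) (K : ℕ) : Prop := ∀ N : ℕ, 1 ≤ N → ∀ n r : ℕ, n = 24 * N + r → ∀ y : ℝ,
    NG n y * Real.exp (-(2 * Real.pi * |y|)) * (1 + y ^ 2) ^ 100 * FXpG ((y / n) ^ 2) ^ N ≤
      C * (n : ℝ) ^ K * Real.exp (n * PhiG)

/-- **the corners on the line** -/
theorem corner_line {C : ℝ} {K : ℕ} (hC : 0 < C) (h : Hyp C K) {n N r : ℕ} (hN : 1 ≤ N) (hn : n = 24 * N + r)
    {b : ℕ} (hb : b ≤ 8) (y : ℝ) :
    NG n y * Real.exp (-(2 * Real.pi * |y|)) * (1 + y ^ 2) * (1 + y ^ 2) ^ 99 *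
      ∏ i ∈ Finset.range b, (‖aeval (zl y) (QB n i)‖ ^ 2) ^ (sN i * N) ≤ Real.exp (la C K n N b) := by
  have h0 : (0 : ℝ) < n := by exact_mod_cast (by omega : 0 < n)
  have h1 := h N hN n r hn y
  have h2 := prod_line (n := n) (by omega) N b hb y
  have e : Real.exp (la C K n N b) * 2 ^ (tN b * N) =
      (C * (n : ℝ) ^ K * Real.exp (n * PhiG)) * (n : ℝ) ^ (4 * (ho b * N)) := by
    unfold la
    rw [Real.exp_sub, Real.exp_add, Real.exp_add, Real.exp_add, Real.exp_log hC]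
    have e1 : Real.exp (K * Real.log n) = (n : ℝ) ^ K := by
      rw [Real.exp_nat_mul, Real.exp_log h0]
    have e2 : Real.exp (4 * (ho b * N) * Real.log n) = (n : ℝ) ^ (4 * (ho b * N)) := by
      have : (4 * (ho b * N) * Real.log n : ℝ) = ((4 * (ho b * N) : ℕ) : ℝ) * Real.log n := by
        push_cast; ring
      rw [this, Real.exp_nat_mul, Real.exp_log h0]
    have e3 : Real.exp (tN b * N * Real.log 2) = (2 : ℝ) ^ (tN b * N) := by
      have : (tN b * N * Real.log 2 : ℝ) = ((tN b * N : ℕ) : ℝ) * Real.log 2 := by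
        push_cast; ring
      rw [this, Real.exp_nat_mul, Real.exp_log (by norm_num)]
    rw [e1, e2, e3]
    field_simp
  have hpos : (0 : ℝ) < 2 ^ (tN b * N) := by positivity
  have hNG := G1M.NG_nonneg n y
  refine le_of_mul_le_mul_right ?_ hpos
  rw [e]
  set W := NG n y * Real.exp (-(2 * Real.pi * |y|)) with hW
  have hW0 : 0 ≤ W := by positivity
  calc W * (1 + y ^ 2) * (1 + y ^ 2) ^ 99 *
      (∏ i ∈ Finset.range b, (‖aeval (zl y) (QB n i)‖ ^ 2) ^ (sN i * N)) * 2 ^ (tN b * N)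
      = W * (1 + y ^ 2) ^ 100 *
      ((∏ i ∈ Finset.range b, (‖aeval (zl y) (QB n i)‖ ^ 2) ^ (sN i * N)) * 2 ^ (tN b * N)) := by ring
    _ ≤ W * (1 + y ^ 2) ^ 100 * ((n : ℝ) ^ (4 * (ho b * N)) * FXpG ((y / n) ^ 2) ^ N) :=
        mul_le_mul_of_nonneg_left h2 (by positivity)
    _ = (W * (1 + y ^ 2) ^ 100 * FXpG ((y / n) ^ 2) ^ N) * (n : ℝ) ^ (4 * (ho b * N)) := by ring
    _ ≤ _ := mul_le_mul_of_nonneg_right h1 (by positivity)

lemma la_mono {C C' : ℝ} {K K' n N : ℕ} (hC : 0 < C) (hCC : C ≤ C') (hK : K ≤ K') (b : ℕ) :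
    la C K n N b ≤ la C' K' n N b := by
  unfold la
  have h1 := Real.log_le_log hC hCC
  have hl : 0 ≤ Real.log n := Real.log_natCast_nonneg n
  have h2 : (K : ℝ) * Real.log n ≤ K' * Real.log n :=
    mul_le_mul_of_nonneg_right (by exact_mod_cast hK) hl
  linarith

/-- the functional and the pole functional -/
theorem NL_rho : ∃ C : ℝ, 1 ≤ C ∧ ∀ n : ℕ, 1 ≤ n → ∀ α β : ℚ,
    ∀ Q : ℚ[X], Q.natDegree ≤ 8 * n - 2 → ∀ B : ℝ,
    (∀ y : ℝ, NG n y * ‖aeval (zl y) Q‖ * Real.exp (-(2 * Real.pi * |y|)) ≤ B * (1 + y ^ 2)⁻¹) →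
    |((NL n α β Q : ℚ) : ℝ)| ≤
      C * (1 + |(β : ℝ)|) * B + 6 * |zr 4 - α - β * zr 3| * |((rho n (PF n * Q) : ℚ) : ℝ)| := by
  obtain ⟨C3, hC3, hK3⟩ := KK_exp (b := 3) (by norm_num)
  obtain ⟨C2, hC2, hK2⟩ := KK_exp (b := 2) (by norm_num)
  refine ⟨2 * C3 + 3 * C2 + 1, by linarith, fun n hn α β Q hQ B hB0 => ?_⟩
  have hB : ∀ y : ℝ, ‖Rn n y‖ * ‖aeval (zl y) Q‖ * Real.exp (-(2 * Real.pi * |y|)) ≤ B * (1 + y ^ 2)⁻¹ := by
    intro y
    rw [AMx.Rn_norm]
    exact hB0 y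
  obtain ⟨F2, F1, h2, h1, hNL⟩ := Mea.B1_gen hn α β Q hQ
  have hdeg := B3_deg' hn Q hQ
  have hs : ∀ k ∈ sF n, 1 ≤ k := by
    intro k hk
    rw [Finset.mem_Icc] at hk
    omega
  have hB' : ∀ y : ℝ, ‖Rc (sF n) mF (PF n * Q) y‖ * Real.exp (-(2 * Real.pi * |y|)) ≤ B * (1 + y ^ 2)⁻¹ := by
    intro y
    refine le_trans (le_of_eq ?_) (hB y)
    rw [Rc_eq _ _ _ hdeg y, map_mul]
    unfold Rn
    rw [norm_div, norm_div, norm_mul]
    ring
  have e2 : |F2| ≤ C3 * B :=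
    F_le_integral (sF n) mF (PF n * Q) hdeg hs (b := 3) le_rfl F2 h2 B hB' C3 hC3.le hK3
  have e1 : |F1| ≤ C2 * B :=
    B2_kernel2 (sF n) mF (PF n * Q) (B3_deg hn Q hQ) hs F1 h1 B hB' C2 hC2.le hK2
  have hBn : 0 ≤ B := by
    have h3 : 0 ≤ C3 * B := (abs_nonneg _).trans e2
    exact nonneg_of_mul_nonneg_right h3 hC3
  set δ : ℝ := zr 4 - α - β * zr 3 with hδ
  rw [hNL]
  have t1 : |2 * F2 + 3 * (β : ℝ) * F1 - 6 * δ * ((rho n (PF n * Q) : ℚ) : ℝ)| ≤
      2 * |F2| + 3 * |(β : ℝ)| * |F1| + 6 * |δ| * |((rho n (PF n * Q) : ℚ) : ℝ)| := by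
    refine (abs_sub _ _).trans ?_
    refine (add_le_add_left (abs_add_le _ _) _).trans (le_of_eq ?_)
    rw [abs_mul, abs_mul, abs_mul, abs_mul, abs_mul]
    norm_num
  refine t1.trans ?_
  have hb0 : 0 ≤ |(β : ℝ)| := abs_nonneg _
  have t2 := mul_le_mul_of_nonneg_left e1 (by positivity : 0 ≤ 3 * |(β : ℝ)|)
  have t4 : 0 ≤ |(β : ℝ)| * (C3 * B) := by positivity
  have t5 : 0 ≤ C2 * B := by positivity
  have t6 : 0 ≤ |(β : ℝ)| * B := by positivity
  nlinarith

/-- one row -/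
lemma line_row {C : ℝ} {K : ℕ} (hC : 0 < C) (h : Hyp C K) {n N r : ℕ} (hN : 1 ≤ N) (hn : n = 24 * N + r)
    {b j : ℕ} (hp : Pos N b j) (y : ℝ) :
    NG n y * Real.exp (-(2 * Real.pi * |y|)) * (1 + y ^ 2) * ‖aeval (zl y) (PA n N b j)‖ ^ 2 ≤
      Real.exp (alr (la C K n N) N b j) := by
  rw [PA_norm]
  have hNG := G1M.NG_nonneg n y
  refine row_bound hN (T := NG n y * Real.exp (-(2 * Real.pi * |y|)) * (1 + y ^ 2)) (D := (1 + y ^ 2) ^ 99)
    (by positivity) (by positivity) ?_ (fun i => ‖aeval (zl y) (QB n i)‖ ^ 2) (fun i => by positivity)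
    (la C K n N) (fun b hb => corner_line hC h hN hn hb y) hp
  intro j hj
  rw [Lin_norm]
  have h9 : (1 : ℝ) ≤ 1 + y ^ 2 := by nlinarith [sq_nonneg y]
  calc (y ^ 2) ^ j ≤ (1 + y ^ 2) ^ j := pow_le_pow_left₀ (sq_nonneg y) (by linarith) j
    _ ≤ (1 + y ^ 2) ^ 99 := pow_le_pow_right₀ h9 (by omega)

/-- one row at the poles -/
lemma pole_row {C C' : ℝ} {K : ℕ} (hC : 1 ≤ C) (hC' : C' = 49 * 10 ^ 184 * C) {n N r k : ℕ} (hN : 1 ≤ N)
    (hn : n = 24 * N + r) (hk : k ∈ sF n) {b j : ℕ} (hp : Pos N b j) :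
    wk n k * Real.exp (-(513 / 10 * n)) * ‖aeval (-(k : ℂ)) (PA n N b j)‖ ^ 2 ≤
      Real.exp (alr (la C' (K + 186) n N) N b j) := by
  rw [PA_norm, hC']
  have hw := wk_nonneg n k
  have hn1 : (1 : ℝ) ≤ n := by exact_mod_cast (by omega : 1 ≤ n)
  refine row_bound hN (T := wk n k * Real.exp (-(513 / 10 * n))) (D := (10 * (n : ℝ)) ^ 184)
    (by positivity) (by positivity) ?_ (fun i => ‖aeval (-(k : ℂ)) (QB n i)‖ ^ 2) (fun i => by positivity)
    (la (49 * 10 ^ 184 * C) (K + 186) n N) (fun b hb => corner_pole hC hn hk hb) hp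
  intro j hj
  calc (‖aeval (-(k : ℂ)) G4.Lin‖ ^ 2) ^ j ≤ ((10 * (n : ℝ)) ^ 2) ^ j :=
        pow_le_pow_left₀ (by positivity) (Lin_pole hk) j
    _ = (10 * (n : ℝ)) ^ (2 * j) := by rw [← pow_mul]
    _ ≤ (10 * (n : ℝ)) ^ 184 := pow_le_pow_right₀ (by linarith) (by omega)

lemma sq_mean {a b x y : ℝ} (_ : 0 ≤ a) (_ : 0 ≤ b) {T : ℝ} (hT : 0 ≤ T) (h1 : T * a ^ 2 ≤ Real.exp x)
    (h2 : T * b ^ 2 ≤ Real.exp y) : T * (a * b) ≤ Real.exp ((x + y) / 2) := by
  apply le_of_pow_le_pow_left₀ two_ne_zero (Real.exp_pos _).le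
  have e : Real.exp ((x + y) / 2) ^ 2 = Real.exp x * Real.exp y := by
    rw [← Real.exp_nat_mul, ← Real.exp_add]
    congr 1
    push_cast
    ring
  rw [e]
  calc (T * (a * b)) ^ 2 = (T * a ^ 2) * (T * b ^ 2) := by ring
    _ ≤ _ := mul_le_mul h1 h2 (by positivity) (Real.exp_pos _).le

/-- **the archimedean part** -/
theorem A_eps (ε : ℝ) (hε : 0 < ε) : ∀ᶠ n : ℕ in atTop, ∀ α β : ℚ,
    |zr 4 - α - β * zr 3| ≤ Real.exp (-(513 / 10 * n)) → DET n α β (4 * n) ≠ 0 →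
    Real.log |((DET n α β (4 * n) : ℚ) : ℝ)| ≤
      16 * (n : ℝ) ^ 2 * Real.log n + (4 * PhiG - 8208 / 576 * Real.log 2 + ε) * (n : ℝ) ^ 2 +
        4 * n * Real.log (1 + |(β : ℝ)|) := by
  obtain ⟨C0, hC0, hNL⟩ := NL_rho
  obtain ⟨C1, K1, hC1, hG⟩ := G1r
  have hG' : Hyp C1 K1 := hG
  obtain ⟨C, hC⟩ : ∃ C : ℝ, C = 49 * 10 ^ 184 * C1 := ⟨_, rfl⟩
  set K : ℕ := K1 + 186 with hK
  have hCC : C1 ≤ C := by
    rw [hC]
    have h1 : (1 : ℝ) ≤ 49 * 10 ^ 184 := by norm_num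
    exact le_mul_of_one_le_left (by linarith) h1
  have hpr : ∀ {n N r k : ℕ}, 1 ≤ N → n = 24 * N + r → k ∈ sF n → ∀ {b j : ℕ}, Pos N b j →
      wk n k * Real.exp (-(513 / 10 * n)) * ‖aeval (-(k : ℂ)) (PA n N b j)‖ ^ 2 ≤
      Real.exp (alr (la C (K1 + 186) n N) N b j) := fun hN hn hk _ _ hp => pole_row (K := K1) hC1 hC hN hn hk hp
  clear hC
  have hC1' : 1 ≤ C := hC1.trans hCC
  set c : ℝ := |Real.log 4 + Real.log C + Real.log (C0 + 42)| + 200 with hc
  filter_upwards [G4.final_ev c (K + 2) ε hε, eventually_ge_atTop 24] with n hev hn24 α β hδ hD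
  set N : ℕ := n / 24 with hNdef
  set r : ℕ := n % 24 with hrdef
  have hn : n = 24 * N + r := (Nat.div_add_mod n 24).symm
  have hr : r < 24 := Nat.mod_lt _ (by norm_num)
  have hN : 1 ≤ N := by omega
  have hn1 : 1 ≤ n := by omega
  have hn0 : (0 : ℝ) < n := by exact_mod_cast (by omega : 0 < n)
  have hnr : (1 : ℝ) ≤ n := by exact_mod_cast hn1
  have hm : 4 * n = 96 * N + 4 * r := by omega
  have hβ0 : 0 ≤ |(β : ℝ)| := abs_nonneg _
  set U : ℝ := (C0 + 42) * n * (1 + |(β : ℝ)|) with hU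
  have hU0 : 0 < U := by positivity
  set al : ℕ → ℝ := fun i => alr (la C K n N) N (loc N i).1 (loc N i).2 with hal
  set P : ℕ → ℚ[X] := fun i => PA n N (loc N i).1 (loc N i).2 with hP
  -- monotonicity of the exponents
  have hmono : ∀ b j : ℕ, Pos N b j → alr (la C1 K1 n N) N b j ≤ alr (la C K n N) N b j := by
    intro b j hp
    have hle : ∀ b, la C1 K1 n N b ≤ la C K n N b := fun b => la_mono (by linarith) hCC (by omega) b
    unfold alr
    split_ifs with h8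
    · exact hle 8
    · rcases hp with ⟨hb, hj⟩ | ⟨hb, -⟩
      · have hS : (0 : ℝ) < ((sN b * N : ℕ) : ℝ) := by exact_mod_cast Nat.mul_pos (sN_pos b) hN
        have hk : ((j / 2 : ℕ) : ℝ) / ((sN b * N : ℕ) : ℝ) ≤ 1 := by
          rw [div_le_one hS]
          exact_mod_cast (by omega : j / 2 ≤ sN b * N)
        have hk0 : 0 ≤ ((j / 2 : ℕ) : ℝ) / ((sN b * N : ℕ) : ℝ) := by positivity
        exact add_le_add (mul_le_mul_of_nonneg_left (hle b) (by linarith))
          (mul_le_mul_of_nonneg_left (hle (b + 1)) hk0)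
      · exact absurd hb h8
  have hentry : ∀ i j : ℕ, i < 4 * n → j < 4 * n →
      |((NL n α β (P i * P j) : ℚ) : ℝ)| ^ 2 ≤ (U * Real.exp (al i)) * (U * Real.exp (al j)) := by
    intro i j hi hj
    rw [hm] at hi hj
    obtain ⟨di, pi⟩ := loc_spec hr hi
    obtain ⟨dj, pj⟩ := loc_spec hr hj
    set B : ℝ := Real.exp ((al i + al j) / 2) with hB
    have hB0 : 0 < B := Real.exp_pos _
    have hdeg : (P i * P j).natDegree ≤ 8 * n - 2 := by
      rw [hP]
      dsimp only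
      rw [(PA_monic _ _ _ _).natDegree_mul (PA_monic _ _ _ _), PA_deg, PA_deg]
      omega
    have hline : ∀ y : ℝ, NG n y * ‖aeval (zl y) (P i * P j)‖ * Real.exp (-(2 * Real.pi * |y|)) ≤
        B * (1 + y ^ 2)⁻¹ := by
      intro y
      have hy : (0 : ℝ) < 1 + y ^ 2 := by positivity
      rw [← div_eq_mul_inv, le_div_iff₀ hy, map_mul, norm_mul]
      have hNG := G1M.NG_nonneg n y
      have q1 := (line_row (by linarith) hG' hN hn pi y).trans (Real.exp_le_exp.2 (hmono _ _ pi))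
      have q2 := (line_row (by linarith) hG' hN hn pj y).trans (Real.exp_le_exp.2 (hmono _ _ pj))
      have q3 := sq_mean (norm_nonneg _) (norm_nonneg _) (by positivity) q1 q2
      calc _ = NG n y * Real.exp (-(2 * Real.pi * |y|)) * (1 + y ^ 2) *
            (‖aeval (zl y) (P i)‖ * ‖aeval (zl y) (P j)‖) := by ring
        _ ≤ _ := q3
    have h1 := hNL n hn1 α β (P i * P j) hdeg B hline
    have hrho : |((rho n (PF n * (P i * P j)) : ℚ) : ℝ)| ≤ 7 * n * (Real.exp (513 / 10 * n) * B) := by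
      unfold rho
      push_cast
      refine (Finset.abs_sum_le_sum_abs _ _).trans ?_
      have hcard : (sF n).card = 7 * n := by
        rw [Nat.card_Icc]; omega
      have hk : ∀ k ∈ sF n, |((pa (sF n) mF (PF n * (P i * P j)) k 2 : ℚ) : ℝ)| ≤ Real.exp (513 / 10 * n) * B := by
        intro k hk
        rw [pa_abs, ← aeval_pole, map_mul, norm_mul]
        have hw := wk_nonneg n k
        have q1 := hpr hN hn hk pi
        have q2 := hpr hN hn hk pj
        have q3 := sq_mean (norm_nonneg _) (norm_nonneg _) (by positivity) q1 q2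
        have e1 : Real.exp (513 / 10 * n) * Real.exp (-(513 / 10 * n)) = 1 := by
          rw [← Real.exp_add, add_neg_cancel, Real.exp_zero]
        calc wk n k * (‖aeval (-(k : ℂ)) (P i)‖ * ‖aeval (-(k : ℂ)) (P j)‖)
            = (Real.exp (513 / 10 * n) * Real.exp (-(513 / 10 * n))) * (wk n k *
              (‖aeval (-(k : ℂ)) (P i)‖ * ‖aeval (-(k : ℂ)) (P j)‖)) := by rw [e1, one_mul]
          _ = Real.exp (513 / 10 * n) * (wk n k * Real.exp (-(513 / 10 * n)) *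
              (‖aeval (-(k : ℂ)) (P i)‖ * ‖aeval (-(k : ℂ)) (P j)‖)) := by ring
          _ ≤ _ := mul_le_mul_of_nonneg_left q3 (Real.exp_pos _).le
      calc _ ≤ ∑ _k ∈ sF n, Real.exp (513 / 10 * n) * B := Finset.sum_le_sum hk
        _ = _ := by
            rw [Finset.sum_const, hcard, nsmul_eq_mul]
            push_cast
            ring
    have h2 : 6 * |zr 4 - α - β * zr 3| * |((rho n (PF n * (P i * P j)) : ℚ) : ℝ)| ≤ 42 * n * B := by
      have h3 := mul_le_mul hδ hrho (abs_nonneg _) (Real.exp_pos _).le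
      have e2 : Real.exp (-(513 / 10 * n)) * (7 * n * (Real.exp (513 / 10 * n) * B)) = 7 * n * B := by
        have e1 : Real.exp (-(513 / 10 * n)) * Real.exp (513 / 10 * n) = 1 := by
          rw [← Real.exp_add, neg_add_cancel, Real.exp_zero]
        calc _ = (Real.exp (-(513 / 10 * n)) * Real.exp (513 / 10 * n)) * (7 * n * B) := by ring
          _ = _ := by rw [e1, one_mul]
      rw [e2] at h3
      linarith
    have h3 : |((NL n α β (P i * P j) : ℚ) : ℝ)| ≤ U * B := by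
      refine (h1.trans (add_le_add_right h2 _)).trans ?_
      have h4 : 0 ≤ C0 * (1 + |(β : ℝ)|) * B := by positivity
      have h5 : 0 ≤ n * B := by positivity
      have h6 : 0 ≤ n * B * |(β : ℝ)| := by positivity
      have h7 : C0 * (1 + |(β : ℝ)|) * B ≤ C0 * (1 + |(β : ℝ)|) * B * n := le_mul_of_one_le_right h4 hnr
      have e3 : U * B = C0 * (1 + |(β : ℝ)|) * B * n + 42 * (n * B) + 42 * (n * B * |(β : ℝ)|) := by
        rw [hU]; ring
      rw [e3]
      linarith only [h6, h7]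
    have hB2 : B ^ 2 = Real.exp (al i) * Real.exp (al j) := by
      rw [hB, ← Real.exp_nat_mul, ← Real.exp_add]
      congr 1
      push_cast
      ring
    calc |((NL n α β (P i * P j) : ℚ) : ℝ)| ^ 2 ≤ (U * B) ^ 2 := pow_le_pow_left₀ (abs_nonneg _) h3 2
      _ = U * U * B ^ 2 := by ring
      _ = _ := by rw [hB2]; ring
  -- the determinant
  have hA1 := Pool.Agent.H336R2.HD.A1_det_monic (NL n α β) (4 * n) P (fun i hi => by
    rw [hm] at hi
    obtain ⟨e2, _⟩ := loc_spec hr hi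
    exact ⟨PA_monic _ _ _ _, by rw [hP]; simp only; rw [PA_deg]; exact e2⟩)
  have hdet : ((DET n α β (4 * n) : ℚ) : ℝ) =
      (Matrix.of fun i j : Fin (4 * n) => ((NL n α β (P i * P j) : ℚ) : ℝ)).det := by
    unfold DET
    rw [← hA1]
    have := RingHom.map_det (Rat.castHom ℝ) (Matrix.of fun i j : Fin (4 * n) => NL n α β (P i * P j))
    simp only [Rat.coe_castHom] at this
    rw [this]
    congr 1
  have hA4 := Pool.Agent.H336R2.HD.A4_abs_det (4 * n)
    (Matrix.of fun i j : Fin (4 * n) => ((NL n α β (P i * P j) : ℚ) : ℝ))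
    (fun i => U * Real.exp (al i)) (fun i => by positivity) (by
      intro i j
      simp only [Matrix.of_apply]
      exact hentry i j i.2 j.2)
  rw [← hdet] at hA4
  have hpos : 0 < |((DET n α β (4 * n) : ℚ) : ℝ)| := abs_pos.2 (by exact_mod_cast hD)
  have hlog := Real.log_le_log hpos hA4
  have hf : (0 : ℝ) < ((4 * n).factorial : ℝ) := by exact_mod_cast Nat.factorial_pos _
  rw [Finset.prod_mul_distrib, Finset.prod_const, Finset.card_range, ← Real.exp_sum,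
    Real.log_mul hf.ne' (by positivity), Real.log_mul (by positivity) (by positivity), Real.log_pow,
    Real.log_exp] at hlog
  have hfac : Real.log ((4 * n).factorial : ℝ) ≤ (4 * n : ℕ) * Real.log (4 * n : ℕ) := by
    rw [← Real.log_pow]
    apply Real.log_le_log hf
    exact_mod_cast Nat.factorial_le_pow (4 * n)
  have hsum := sum_al (C := C) (K := K) (n := n) (N := N) hN hr
  rw [← hm] at hsum
  have hl : 0 ≤ Real.log n := Real.log_natCast_nonneg n
  have hl2 : 0 ≤ Real.log 2 := Real.log_nonneg (by norm_num)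
  have hl2' : Real.log 2 ≤ 1 := by
    have := Real.log_two_lt_d9
    linarith
  have hmn : ((4 * n : ℕ) : ℝ) = 4 * n := by push_cast; ring
  rw [hmn] at hlog hsum hfac
  have p1 : Real.log (4 * (n : ℝ)) = Real.log 4 + Real.log n :=
    Real.log_mul (by norm_num) (by positivity)
  rw [p1] at hfac
  have p2 : Real.log U = Real.log (C0 + 42) + Real.log n + Real.log (1 + |(β : ℝ)|) := by
    rw [hU, Real.log_mul (by positivity) (by positivity), Real.log_mul (by positivity) (by positivity)]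
  rw [p2] at hlog
  -- the quadratic term
  have p4 : -((8208 * (N : ℝ) - 16) * (N * Real.log 2)) ≤
      - (8208 / 576 * Real.log 2) * (n : ℝ) ^ 2 + 700 * (n : ℝ) := by
    have hrr : (r : ℝ) ≤ 23 := by exact_mod_cast (by omega : r ≤ 23)
    have hr0 : (0 : ℝ) ≤ r := Nat.cast_nonneg r
    have hNn : (24 : ℝ) * N = n - r := by
      have h' : (n : ℝ) = 24 * N + r := by exact_mod_cast hn
      linarith
    have hNe : (N : ℝ) = (n - r) / 24 := by linarith
    have hN0 : (0 : ℝ) ≤ N := Nat.cast_nonneg N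
    have h1 : (n : ℝ) ^ 2 / 576 - 46 / 576 * n ≤ (N : ℝ) ^ 2 := by
      rw [hNe]
      have h0 : 0 ≤ (23 - (r : ℝ)) * n := mul_nonneg (by linarith) hn0.le
      have e5 : (((n : ℝ) - r) / 24) ^ 2 = (n : ℝ) ^ 2 / 576 - 46 / 576 * n + (2 * ((23 - (r : ℝ)) * n) + (r : ℝ) ^ 2) / 576 := by
        ring
      rw [e5]
      linarith only [h0, sq_nonneg (r : ℝ)]
    have h2 : (N : ℝ) ≤ n / 24 := by linarith
    have h3 : -((8208 * (N : ℝ) - 16) * (N * Real.log 2)) =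
        (-8208 * (N : ℝ) ^ 2 + 16 * N) * Real.log 2 := by ring
    have h4 : - (8208 / 576 * Real.log 2) * (n : ℝ) ^ 2 + 700 * (n : ℝ) ≥
        (-8208 / 576 * (n : ℝ) ^ 2 + 700 * n) * Real.log 2 := by
      have : 700 * (n : ℝ) * Real.log 2 ≤ 700 * n * 1 := mul_le_mul_of_nonneg_left hl2' (by positivity)
      linarith
    rw [h3]
    refine le_trans ?_ h4
    apply mul_le_mul_of_nonneg_right _ hl2
    linarith
  have p6 : 4 * (n : ℝ) * (Real.log 4 + Real.log C + Real.log (C0 + 42)) ≤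
      4 * n * |Real.log 4 + Real.log C + Real.log (C0 + 42)| :=
    mul_le_mul_of_nonneg_left (le_abs_self _) (by positivity)
  have hev' : 4 * (n : ℝ) * (|Real.log 4 + Real.log C + Real.log (C0 + 42)| + 200 + ((K : ℝ) + 2) * Real.log n) ≤
      ε * (n : ℝ) ^ 2 := by
    have := hev
    push_cast at this
    exact this
  have e2 : 4 * (n : ℝ) * (|Real.log 4 + Real.log C + Real.log (C0 + 42)| + 200 + ((K : ℝ) + 2) * Real.log n) =
      4 * n * |Real.log 4 + Real.log C + Real.log (C0 + 42)| + 800 * n +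
      4 * n * (((K : ℝ) + 2) * Real.log n) := by ring
  rw [e2] at hev'
  have hsum' : ∑ i ∈ Finset.range (4 * n), al i ≤
      4 * (n : ℝ) * (Real.log C + K * Real.log n + n * PhiG) + (4 * (n : ℝ)) ^ 2 * Real.log n -
        (8208 * (N : ℝ) - 16) * (N * Real.log 2) := hsum
  have hn700 : 700 * (n : ℝ) ≤ 800 * n := by linarith
  linarith only [hlog, hsum', p4, p6, hev', hfac, hn700]

end

end Pool.Agent.Q203.PZ
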