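import Pool.Agent.H383.Z34.GDefs
import Pool.Agent.H383.Z34.G3

/-!
# Eight nodes on the line: the numerical certificate
-/

namespace Pool.Agent.Q203.PZ

set_option autoImplicit false

open Pool.Agent.ZF Pool.Agent.ZF.GC
open Pool.Agent.H336R2.HD.G3 (vl P1 P2 C6 D6 Q Pos Q_pos P2_pos C6_pos Q_low Q_six Q_append)

/-- thousand times the squares of the ordinates of the nodes (divided by `n`) -/
def hN : ℕ → ℕ
  | 0 => 5
  | 1 => 100
  | 2 => 390
  | 3 => 885
  | 4 => 80
  | 5 => 1970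
  | 6 => 1820
  | _ => 3575

/-- the squares of the ordinates -/
def hR (i : ℕ) : ℚ := (hN i : ℚ) / 1000

/-- multiplicities (times `N`) -/
def sN : ℕ → ℕ
  | 0 => 4
  | 1 => 5
  | 2 => 5
  | 3 => 6
  | 4 => 3
  | 5 => 7
  | 6 => 11
  | _ => 7

/-- the binary exponents at the stages -/
def tN : ℕ → ℕ
  | 0 => 0
  | 1 => 46
  | 2 => 74
  | 3 => 93
  | 4 => 107
  | 5 => 105
  | 6 => 118
  | 7 => 99
  | _ => 16

/-- numerator of `|h - v|` at `v = n/d` -/
def En (i n d : ℕ) : ℕ := (hN i * d - 1000 * n) + (1000 * n - hN i * d)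

/-- bound for the left side on `[n0/d0, n1/d1]` -/
def LNz (n0 d0 n1 d1 : ℕ) : ℕ → ℕ
  | 0 => 1
  | i + 1 => LNz n0 d0 n1 d1 i * (max (En i n0 d0 * d1) (En i n1 d1 * d0)) ^ (2 * sN i)

def SNz : ℕ → ℕ
  | 0 => 0
  | i + 1 => SNz i + sN i

def chkIz (b : ℕ) (p q : ℕ × ℕ) : Bool :=
  decide (0 < p.2) && decide (0 < q.2) &&
    decide (2 ^ tN b * LNz p.1 p.2 q.1 q.2 b * P2 KK0 p.2 ≤
      P1 KK0 p.1 p.2 * (1000 * p.2 * q.2) ^ (2 * SNz b))

def chkLz (b : ℕ) : List (ℕ × ℕ) → Bool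
  | [] => true
  | p :: l => (match l with
    | [] => true
    | q :: _ => chkIz b p q) && chkLz b l

def chkTz (b : ℕ) (p : ℕ × ℕ) : Bool :=
  decide (0 < p.2) && decide (2 * p.2 ≤ p.1) &&
    decide (2 ^ tN b * P2 K1 p.2 * P2 K2 p.2 * C6 K6 * p.2 ^ (144 - 2 * SNz b) ≤
      p.1 ^ (144 - 2 * SNz b) * P1 K1 p.1 p.2 * P1 K2 p.1 p.2 * D6 K6)

def bz1 : List (ℕ × ℕ) :=
  [(0, 1), (23, 1000), (21, 500), (11, 200), (13, 200), (73, 1000), (79, 1000), (17, 200),
   (9, 100), (19, 200), (1, 10), (21, 200), (11, 100), (29, 250), (61, 500), (129, 1000),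
   (69, 500), (3, 20), (83, 500), (191, 1000), (117, 500), (327, 1000), (319, 500), (109, 25),
   (13979, 200)]

def bz2 : List (ℕ × ℕ) :=
  [(0, 1), (17, 500), (123, 1000), (1, 5), (123, 500), (277, 1000), (299, 1000), (79, 250),
   (33, 100), (171, 500), (44, 125), (361, 1000), (369, 1000), (47, 125), (383, 1000),
   (389, 1000), (79, 200), (401, 1000), (407, 1000), (413, 1000), (419, 1000), (17, 40),
   (431, 1000), (437, 1000), (111, 250), (451, 1000), (459, 1000), (117, 250), (239, 500),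
   (49, 100), (63, 125), (521, 1000), (271, 500), (57, 100), (609, 1000), (667, 1000),
   (381, 500), (473, 500), (1421, 1000), (153, 40), (1734, 25)]

def bz3 : List (ℕ × ℕ) :=
  [(0, 1), (23, 1000), (59, 1000), (157, 1000), (29, 125), (67, 200), (127, 250), (597, 1000),
   (653, 1000), (693, 1000), (723, 1000), (747, 1000), (767, 1000), (98, 125), (799, 1000),
   (203, 250), (103, 125), (167, 200), (169, 200), (427, 500), (863, 1000), (109, 125),
   (881, 1000), (889, 1000), (897, 1000), (453, 500), (183, 200), (231, 250), (467, 500),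
   (118, 125), (191, 200), (967, 1000), (49, 50), (199, 200), (253, 250), (1031, 1000),
   (527, 500), (541, 500), (1117, 1000), (1163, 1000), (613, 500), (659, 500), (733, 500),
   (1739, 1000), (2379, 1000), (1219, 250), (12129, 200)]

def bz4 : List (ℕ × ℕ) :=
  [(0, 1), (11, 1000), (17, 1000), (1, 50), (23, 1000), (1, 40), (13, 500), (27, 1000), (7, 250),
   (29, 1000), (3, 100), (31, 1000), (4, 125), (33, 1000), (7, 200), (37, 1000), (1, 25),
   (11, 250), (13, 250), (71, 1000), (17, 125), (171, 1000), (199, 1000), (57, 250), (67, 250),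
   (87, 250), (62, 125), (61, 100), (19, 25), (529, 500), (303, 250), (657, 500), (1391, 1000),
   (291, 200), (1511, 1000), (781, 500), (1611, 1000), (83, 50), (214, 125), (221, 125),
   (229, 125), (477, 250), (501, 250), (2133, 1000), (2321, 1000), (263, 100), (647, 200),
   (2431, 500), (113, 8)]

def bz5 : List (ℕ × ℕ) :=
  [(0, 1), (7, 125), (193, 1000), (331, 1000), (67, 125), (719, 1000), (211, 200), (1219, 1000),
   (1321, 1000), (174, 125), (361, 250), (297, 200), (759, 500), (309, 200), (196, 125),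
   (397, 250), (321, 200), (81, 50), (817, 500), (823, 500), (1657, 1000), (1667, 1000),
   (1677, 1000), (843, 500), (847, 500), (851, 500), (1709, 1000), (429, 250), (1723, 1000),
   (173, 100), (217, 125), (871, 500), (437, 250), (877, 500), (44, 25), (883, 500), (443, 250),
   (889, 500), (223, 125), (179, 100), (449, 250), (901, 500), (226, 125), (907, 500), (91, 50),
   (913, 500), (1833, 1000), (46, 25), (1847, 1000), (927, 500), (931, 500), (187, 100),
   (1879, 1000), (236, 125), (949, 500), (1909, 1000), (1921, 1000), (967, 500), (487, 250),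
   (491, 250), (991, 500), (1001, 500), (81, 40), (513, 250), (521, 250), (2123, 1000),
   (2171, 1000), (279, 125), (289, 125), (1211, 500), (1291, 500), (1417, 500), (3283, 1000),
   (4263, 1000), (7463, 1000), (40317, 1000)]

def bz6 : List (ℕ × ℕ) :=
  [(0, 1), (1, 100), (3, 200), (9, 500), (1, 50), (11, 500), (3, 125), (27, 1000), (3, 100),
   (7, 200), (9, 200), (79, 1000), (7, 50), (83, 500), (181, 1000), (19, 100), (197, 1000),
   (101, 500), (103, 500), (209, 1000), (211, 1000), (213, 1000), (43, 200), (217, 1000),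
   (109, 500), (219, 1000), (11, 50), (221, 1000), (111, 500), (223, 1000), (28, 125), (9, 40),
   (113, 500), (227, 1000), (57, 250), (229, 1000), (23, 100), (231, 1000), (29, 125),
   (233, 1000), (117, 500), (47, 200), (59, 250), (237, 1000), (119, 500), (239, 1000), (6, 25),
   (241, 1000), (121, 500), (243, 1000), (61, 250), (49, 200), (247, 1000), (249, 1000),
   (251, 1000), (127, 500), (257, 1000), (261, 1000), (133, 500), (273, 1000), (71, 250),
   (301, 1000), (67, 200), (109, 250), (243, 500), (129, 250), (537, 1000), (277, 500),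
   (569, 1000), (583, 1000), (597, 1000), (153, 250), (629, 1000), (13, 20), (679, 1000),
   (181, 250), (407, 500), (1, 1), (543, 500), (1139, 1000), (147, 125), (301, 250),
   (1227, 1000), (1247, 1000), (158, 125), (32, 25), (259, 200), (131, 100), (53, 40),
   (1341, 1000), (679, 500), (1377, 1000), (1399, 1000), (713, 500), (73, 50), (1507, 1000),
   (789, 500), (851, 500), (1997, 1000), (1143, 500), (1223, 500), (2551, 1000), (2627, 1000),
   (537, 200), (2731, 1000), (2769, 1000), (2801, 1000), (707, 250), (713, 250), (2873, 1000),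
   (723, 250), (2909, 1000), (117, 40), (147, 50), (1477, 500), (2967, 1000), (2979, 1000),
   (2991, 1000), (1501, 500), (3013, 1000), (3023, 1000), (3033, 1000), (3043, 1000),
   (3053, 1000), (3063, 1000), (3073, 1000), (3083, 1000), (3093, 1000), (3103, 1000),
   (3113, 1000), (3123, 1000), (3133, 1000), (393, 125), (631, 200), (3167, 1000), (3179, 1000),
   (399, 125), (1603, 500), (3221, 1000), (3237, 1000), (1627, 500), (3273, 1000), (1647, 500),
   (3317, 1000), (3343, 1000), (3373, 1000), (3407, 1000), (3447, 1000), (699, 200),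
   (3553, 1000), (1813, 500), (3719, 1000), (3843, 1000), (4017, 1000), (1069, 250),
   (4699, 1000), (2747, 500), (739, 100), (14893, 1000)]

def bz7 : List (ℕ × ℕ) :=
  [(0, 1), (1, 100), (3, 200), (9, 500), (21, 1000), (3, 125), (27, 1000), (4, 125), (1, 25),
   (31, 500), (67, 500), (17, 100), (97, 500), (213, 1000), (29, 125), (127, 500), (57, 200),
   (343, 1000), (233, 500), (111, 200), (33, 50), (429, 500), (579, 500), (1611, 1000),
   (1227, 500), (2867, 1000), (1561, 500), (1649, 500), (857, 250), (3529, 1000), (3611, 1000),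
   (3679, 1000), (467, 125), (757, 200), (957, 250), (3867, 1000), (1951, 500), (3933, 1000),
   (1981, 500), (3989, 1000), (2007, 500), (2019, 500), (203, 50), (4081, 1000), (2051, 500),
   (2061, 500), (4141, 1000), (104, 25), (4179, 1000), (4197, 1000), (843, 200), (4233, 1000),
   (4251, 1000), (4269, 1000), (536, 125), (4307, 1000), (2163, 500), (2173, 500), (4367, 1000),
   (4389, 1000), (1103, 250), (1109, 250), (4461, 1000), (561, 125), (4517, 1000), (4549, 1000),
   (573, 125), (4623, 1000), (2333, 500), (943, 200), (4771, 1000), (1209, 250), (614, 125),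
   (1251, 250), (5117, 1000), (263, 50), (5447, 1000), (5703, 1000), (3037, 500), (6657, 1000),
   (769, 100), (9927, 1000), (17077, 1000)]

def bz8 : List (ℕ × ℕ) :=
  [(0, 1), (251, 1000), (803, 1000), (2037, 1000), (3777, 1000), (2903, 500), (1109, 125),
   (16869, 1000)]

theorem hN_le (i : ℕ) : hN i ≤ 4000 := by
  unfold hN
  split <;> norm_num

theorem hR_eq (i : ℕ) : ((hR i : ℚ) : ℝ) = (hN i : ℝ) / 1000 := by
  unfold hR
  push_cast
  rfl

theorem En_cast (i n d : ℕ) : ((En i n d : ℕ) : ℝ) = |(hN i : ℝ) * d - 1000 * n| := by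
  unfold En
  rcases le_total (hN i * d) (1000 * n) with h | h
  · rw [Nat.sub_eq_zero_of_le h, zero_add, Nat.cast_sub h]
    have h' : (hN i : ℝ) * d ≤ 1000 * n := by exact_mod_cast h
    rw [abs_of_nonpos (by linarith)]
    push_cast
    ring
  · rw [Nat.sub_eq_zero_of_le h, add_zero, Nat.cast_sub h]
    have h' : (1000 : ℝ) * n ≤ hN i * d := by exact_mod_cast h
    rw [abs_of_nonneg (by linarith)]
    push_cast
    ring

theorem factorz (i : ℕ) {n0 d0 n1 d1 : ℕ} (hd0 : 0 < d0) (hd1 : 0 < d1) {v : ℝ}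
    (h0 : vl (n0, d0) ≤ v) (h1 : v ≤ vl (n1, d1)) :
    |((hR i : ℚ) : ℝ) - v| * (1000 * d0 * d1) ≤
      ((max (En i n0 d0 * d1) (En i n1 d1 * d0) : ℕ) : ℝ) := by
  have hd0' : (0 : ℝ) < d0 := by exact_mod_cast hd0
  have hd1' : (0 : ℝ) < d1 := by exact_mod_cast hd1
  set M : ℝ := ((max (En i n0 d0 * d1) (En i n1 d1 * d0) : ℕ) : ℝ) with hM
  have hc : (0 : ℝ) < 1000 * d0 * d1 := by positivity
  have e0 : |((hR i : ℚ) : ℝ) - vl (n0, d0)| * (1000 * d0 * d1) = ((En i n0 d0 * d1 : ℕ) : ℝ) := by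
    rw [Nat.cast_mul, En_cast, hR_eq]
    have : (hN i : ℝ) * d0 - 1000 * n0 = ((hN i : ℝ) / 1000 - vl (n0, d0)) * (1000 * d0) := by
      unfold vl; field_simp
    rw [this, abs_mul, abs_of_pos (by positivity : (0 : ℝ) < 1000 * d0)]
    ring
  have e1 : |((hR i : ℚ) : ℝ) - vl (n1, d1)| * (1000 * d0 * d1) = ((En i n1 d1 * d0 : ℕ) : ℝ) := by
    rw [Nat.cast_mul, En_cast, hR_eq]
    have : (hN i : ℝ) * d1 - 1000 * n1 = ((hN i : ℝ) / 1000 - vl (n1, d1)) * (1000 * d1) := by
      unfold vl; field_simp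
    rw [this, abs_mul, abs_of_pos (by positivity : (0 : ℝ) < 1000 * d1)]
    ring
  rw [← le_div_iff₀ hc]
  apply GC.abs_max h0 h1
  · rw [le_div_iff₀ hc, e0, hM]
    exact_mod_cast le_max_left _ _
  · rw [le_div_iff₀ hc, e1, hM]
    exact_mod_cast le_max_right _ _

theorem LNz_sound {n0 d0 n1 d1 : ℕ} (hd0 : 0 < d0) (hd1 : 0 < d1) {v : ℝ}
    (h0 : vl (n0, d0) ≤ v) (h1 : v ≤ vl (n1, d1)) : ∀ b : ℕ,
    (∏ i ∈ Finset.range b, |((hR i : ℚ) : ℝ) - v| ^ (2 * sN i)) * (1000 * (d0 : ℝ) * d1) ^ (2 * SNz b) ≤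
      ((LNz n0 d0 n1 d1 b : ℕ) : ℝ) := by
  intro b
  induction b with
  | zero => simp [LNz, SNz]
  | succ b ih =>
    rw [Finset.prod_range_succ]
    have hS : SNz (b + 1) = SNz b + sN b := rfl
    have hL : LNz n0 d0 n1 d1 (b + 1) = LNz n0 d0 n1 d1 b *
      (max (En b n0 d0 * d1) (En b n1 d1 * d0)) ^ (2 * sN b) := rfl
    rw [hS, hL, mul_add, pow_add, Nat.cast_mul, Nat.cast_pow]
    have hf := factorz b hd0 hd1 h0 h1
    calc (∏ i ∈ Finset.range b, |((hR i : ℚ) : ℝ) - v| ^ (2 * sN i)) * |((hR b : ℚ) : ℝ) - v| ^ (2 * sN b) *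
          ((1000 * (d0 : ℝ) * d1) ^ (2 * SNz b) * (1000 * (d0 : ℝ) * d1) ^ (2 * sN b))
        = ((∏ i ∈ Finset.range b, |((hR i : ℚ) : ℝ) - v| ^ (2 * sN i)) *
          (1000 * (d0 : ℝ) * d1) ^ (2 * SNz b)) *
          (|((hR b : ℚ) : ℝ) - v| * (1000 * (d0 : ℝ) * d1)) ^ (2 * sN b) := by
          rw [mul_pow |((hR b : ℚ) : ℝ) - v|]; ring
      _ ≤ _ := by
          apply mul_le_mul ih _ (by positivity) (Nat.cast_nonneg _)
          exact pow_le_pow_left₀ (by positivity) hf _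

theorem chkIz_spec {b : ℕ} {p q : ℕ × ℕ} (h : chkIz b p q = true) :
    0 < p.2 ∧ 0 < q.2 ∧ 2 ^ tN b * LNz p.1 p.2 q.1 q.2 b * P2 KK0 p.2 ≤
      P1 KK0 p.1 p.2 * (1000 * p.2 * q.2) ^ (2 * SNz b) := by
  unfold chkIz at h
  rw [Bool.and_eq_true, Bool.and_eq_true] at h
  exact ⟨of_decide_eq_true h.1.1, of_decide_eq_true h.1.2, of_decide_eq_true h.2⟩

theorem intervalz {b : ℕ} {p q : ℕ × ℕ} (h : chkIz b p q = true) {v : ℝ}
    (h0 : vl p ≤ v) (h1 : v ≤ vl q) :
    2 ^ tN b * ∏ i ∈ Finset.range b, |((hR i : ℚ) : ℝ) - v| ^ (2 * sN i) ≤ FXpG v := by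
  obtain ⟨n0, d0⟩ := p
  obtain ⟨n1, d1⟩ := q
  obtain ⟨hp, hq, hle⟩ := chkIz_spec h
  have h0' : (0 : ℝ) < d0 := by exact_mod_cast hp
  have h1' : (0 : ℝ) < d1 := by exact_mod_cast hq
  rw [FXpG_eq]
  exact real_intervalz (LNz_sound hp hq h0 h1 b) (Q_low KK0 posKK0 hp h0)
    (P2_pos KK0 posKK0 hp) (by positivity) (by positivity) (nat_intervalz _ _ _ _ _ _ _ hle)

theorem chainz {b : ℕ} : ∀ (l : List (ℕ × ℕ)) (p : ℕ × ℕ), chkLz b (p :: l) = true →
    ∀ v : ℝ, vl p ≤ v → v < vl ((p :: l).getLast (by simp)) →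
    2 ^ tN b * ∏ i ∈ Finset.range b, |((hR i : ℚ) : ℝ) - v| ^ (2 * sN i) ≤ FXpG v := by
  intro l
  induction l with
  | nil =>
    intro p _ v h0 h1
    simp at h1
    linarith
  | cons q l ih =>
    intro p h v h0 h1
    have h' : chkIz b p q = true ∧ chkLz b (q :: l) = true := by
      have : chkLz b (p :: q :: l) = (chkIz b p q && chkLz b (q :: l)) := rfl
      rw [this, Bool.and_eq_true] at h
      exact h
    rcases le_or_gt v (vl q) with h2 | h2
    · exact intervalz h'.1 h0 h2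
    · apply ih q h'.2 v h2.le
      rw [List.getLast_cons (by simp)] at h1
      exact h1

theorem prod_tailz {v : ℝ} (hv : 2 ≤ v) : ∀ b : ℕ,
    ∏ i ∈ Finset.range b, |((hR i : ℚ) : ℝ) - v| ^ (2 * sN i) ≤ v ^ (2 * SNz b) := by
  intro b
  induction b with
  | zero => simp [SNz]
  | succ b ih =>
    rw [Finset.prod_range_succ]
    have hS : SNz (b + 1) = SNz b + sN b := rfl
    rw [hS, mul_add, pow_add]
    have h1 : |((hR b : ℚ) : ℝ) - v| ≤ v := by
      rw [hR_eq]
      have h2 : ((hN b : ℕ) : ℝ) ≤ 4000 := by exact_mod_cast hN_le b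
      have h3 : (0 : ℝ) ≤ hN b := Nat.cast_nonneg _
      rw [abs_le]
      constructor <;> linarith
    have hv0 : 0 ≤ v := by linarith
    exact mul_le_mul ih (pow_le_pow_left₀ (abs_nonneg _) h1 _) (by positivity) (by positivity)

theorem chkTz_spec {b : ℕ} {p : ℕ × ℕ} (h : chkTz b p = true) :
    0 < p.2 ∧ 2 * p.2 ≤ p.1 ∧ 2 ^ tN b * P2 K1 p.2 * P2 K2 p.2 * C6 K6 * p.2 ^ (144 - 2 * SNz b) ≤
      p.1 ^ (144 - 2 * SNz b) * P1 K1 p.1 p.2 * P1 K2 p.1 p.2 * D6 K6 := by
  unfold chkTz at h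
  rw [Bool.and_eq_true, Bool.and_eq_true] at h
  exact ⟨of_decide_eq_true h.1.1, of_decide_eq_true h.1.2, of_decide_eq_true h.2⟩

theorem tailz {b : ℕ} (hS : 2 * SNz b ≤ 144) {p : ℕ × ℕ} (h : chkTz b p = true) {v : ℝ}
    (h0 : vl p ≤ v) :
    2 ^ tN b * ∏ i ∈ Finset.range b, |((hR i : ℚ) : ℝ) - v| ^ (2 * sN i) ≤ FXpG v := by
  obtain ⟨n, d⟩ := p
  obtain ⟨hp, hq, hle⟩ := chkTz_spec h
  have hd : (0 : ℝ) < d := by exact_mod_cast hp
  have hnv : (n : ℝ) ≤ v * d := by
    have : (n : ℝ) / d ≤ v := h0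
    rwa [div_le_iff₀ hd] at this
  have hv : 2 ≤ v := by
    have h1 : (2 : ℝ) * d ≤ n := by exact_mod_cast hq
    have h2 : (2 : ℝ) * d ≤ v * d := h1.trans hnv
    exact le_of_mul_le_mul_right h2 hd
  have hv0 : 0 ≤ v := by linarith
  have q6 := Q_six K6 posK6 hv0
  have hsum : (K6.map fun y => y.2.2).sum = 144 := by decide
  rw [hsum] at q6
  have hFX : FXpG v = Q K1 v * Q K6 v * Q K2 v := by
    rw [FXpG_eq]
    unfold KK0
    rw [Q_append, Q_append]
  rw [hFX]
  have hZ' : 2 * SNz b + (144 - 2 * SNz b) = 144 := by omega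
  exact real_tailz hZ' hv0 hd (Nat.cast_nonneg _) hnv (prod_tailz hv b)
    (Q_low K1 posK1 hp h0) (Q_low K2 posK2 hp h0) q6
    (P2_pos K1 posK1 hp) (P2_pos K2 posK2 hp) (C6_pos K6 posK6) (Nat.cast_nonneg _) (Nat.cast_nonneg _)
    (Q_pos K1 posK1 hv0) (Q_pos K2 posK2 hv0) (Nat.cast_nonneg _) (by positivity)
    (nat_tailz _ _ _ _ _ _ _ _ _ _ hle)

theorem cz1 : chkLz 1 bz1 = true := by decide +kernel

theorem cz2 : chkLz 2 bz2 = true := by decide +kernel

theorem cz3 : chkLz 3 bz3 = true := by decide +kernel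

theorem cz4 : chkLz 4 bz4 = true := by decide +kernel

theorem cz5 : chkLz 5 bz5 = true := by decide +kernel

theorem cz6 : chkLz 6 bz6 = true := by decide +kernel

theorem cz7 : chkLz 7 bz7 = true := by decide +kernel

theorem cz8 : chkLz 8 bz8 = true := by decide +kernel

theorem tz1 : chkTz 1 (bz1.getLast (by decide)) = true := by decide +kernel

theorem tz2 : chkTz 2 (bz2.getLast (by decide)) = true := by decide +kernel

theorem tz3 : chkTz 3 (bz3.getLast (by decide)) = true := by decide +kernel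

theorem tz4 : chkTz 4 (bz4.getLast (by decide)) = true := by decide +kernel

theorem tz5 : chkTz 5 (bz5.getLast (by decide)) = true := by decide +kernel

theorem tz6 : chkTz 6 (bz6.getLast (by decide)) = true := by decide +kernel

theorem tz7 : chkTz 7 (bz7.getLast (by decide)) = true := by decide +kernel

theorem tz8 : chkTz 8 (bz8.getLast (by decide)) = true := by decide +kernel

theorem bothz {b : ℕ} (hS : 2 * SNz b ≤ 144) (l : List (ℕ × ℕ)) (p : ℕ × ℕ)
    (hp : p.1 = 0) (h1 : chkLz b (p :: l) = true)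
    (h2 : chkTz b ((p :: l).getLast (by simp)) = true) {v : ℝ} (hv : 0 ≤ v) :
    2 ^ tN b * ∏ i ∈ Finset.range b, |((hR i : ℚ) : ℝ) - v| ^ (2 * sN i) ≤ FXpG v := by
  rcases lt_or_ge v (vl ((p :: l).getLast (by simp))) with h | h
  · apply chainz l p h1 v _ h
    unfold vl
    rw [hp]
    simpa using hv
  · exact tailz hS h2 h

/-- **certificate** -/
theorem cert (b : ℕ) (hb : b ≤ 8) (v : ℝ) (hv : 0 ≤ v) :
    2 ^ tN b * ∏ i ∈ Finset.range b, |((hR i : ℚ) : ℝ) - v| ^ (2 * sN i) ≤ FXpG v := by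
  interval_cases b
  · rw [FXpG_eq]
    have h : (1 : ℝ) ≤ Q KK0 v := by
      have := Q_low KK0 posKK0 (n := 0) (d := 1) one_pos (v := v) (by unfold vl; simpa using hv)
      have e : P1 KK0 0 1 = P2 KK0 1 := by
        unfold P1 P2
        simp
      rw [e] at this
      have hp := P2_pos KK0 posKK0 one_pos
      have h2 : 1 * (P2 KK0 1 : ℝ) ≤ Q KK0 v * P2 KK0 1 := by rw [one_mul]; exact this
      exact le_of_mul_le_mul_right h2 hp
    simpa [tN] using h
  · exact bothz (by decide) _ _ rfl cz1 tz1 hv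
  · exact bothz (by decide) _ _ rfl cz2 tz2 hv
  · exact bothz (by decide) _ _ rfl cz3 tz3 hv
  · exact bothz (by decide) _ _ rfl cz4 tz4 hv
  · exact bothz (by decide) _ _ rfl cz5 tz5 hv
  · exact bothz (by decide) _ _ rfl cz6 tz6 hv
  · exact bothz (by decide) _ _ rfl cz7 tz7 hv
  · exact bothz (by decide) _ _ rfl cz8 tz8 hv

end Pool.Agent.Q203.PZ
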