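import Pool.Agent.Y801.Z5S.Interp
import Pool.Agent.Q203.LQ.Deg
import Pool.Agent.Q203.PZ.PV

/-!
# Local bounds for `(4 n)! q ^ (4 n) DET n (a / d) (b / d) (4 n)`

`d = q ∏_{p ∈ B} p` with primes `p` of `B` between `n` and `19 n / 3`. The denominator of the point only costs
`q ^ (4 n)`.
-/

open Polynomial Pool.Agent.H337R2 Filter Topology Pool.Agent.ZF

namespace Pool.Agent.Q203.PZ

noncomputable section

set_option autoImplicit false

/-- the determinant on a line through the origin is a polynomial of degree at most `4 n` -/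
theorem det_poly (n : ℕ) (a b : ℚ) : ∃ P : ℚ[X], P.natDegree ≤ 4 * n ∧ ∀ x : ℚ,
    P.eval x = DET n (a * x) (b * x) (4 * n) := by
  refine ⟨(Matrix.of fun i j : Fin (4 * n) => C (-h4 n (PF n * X ^ (i.1 + j.1))) +
    C (6 * a * rho n (PF n * X ^ (i.1 + j.1)) + b * h3 n (PF n * X ^ (i.1 + j.1))) * X).det, ?_, fun x => ?_⟩
  · refine (Pool.Agent.Q203.LQ.det_natDegree_le (4 * n) _ (fun _ => 1) ?_).trans (by
      rw [Finset.sum_const, Finset.card_range, smul_eq_mul, mul_one])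
    intro i j
    rw [Matrix.of_apply]
    exact Pool.Agent.Q203.LQ.natDegree_lin _ _
  · rw [Pool.Agent.Q203.LQ.eval_det]
    unfold DET
    congr 1
    ext i j
    rw [Matrix.map_apply, Matrix.of_apply, Matrix.of_apply, NL_apply]
    unfold xf
    simp only [eval_add, eval_mul, eval_C, eval_X]
    ring

lemma norm_prod_one (p : ℕ) [hp : Fact p.Prime] (B : Finset ℕ) (hB : ∀ r ∈ B, r.Prime) (hpB : p ∉ B) :
    padicNorm p ((∏ r ∈ B, r : ℕ) : ℚ) = 1 := by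
  rw [padicNorm.nat_eq_one_iff]
  intro hdvd
  rw [Prime.dvd_finsetProd_iff (Nat.prime_iff.1 hp.out)] at hdvd
  obtain ⟨r, hr, hpr⟩ := hdvd
  rw [Nat.prime_dvd_prime_iff_eq hp.out (hB r hr)] at hpr
  rw [hpr] at hpB
  exact hpB hr

/-- for every prime the number `z` is bounded by a value of the determinant at a point where the local
bounds hold -/
theorem loc_point (n : ℕ) (a b : ℤ) (d q : ℕ) (hd : 0 < d) (B : Finset ℕ) (hB : ∀ r ∈ B, r.Prime)
    (hdq : d = q * ∏ r ∈ B, r) (p : ℕ) [hp : Fact p.Prime] :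
    ∃ α β : ℚ, ((QI 1 α ∧ QI 1 β) ∨ (p ∈ B ∧ padicNorm p α ≤ (p : ℚ) ∧ padicNorm p β ≤ (p : ℚ))) ∧
      (p ∉ B → QI 1 α ∧ QI 1 β) ∧
      padicNorm p (((4 * n).factorial : ℚ) * (q : ℚ) ^ (4 * n) * DET n ((a : ℚ) / d) ((b : ℚ) / d) (4 * n)) ≤
        padicNorm p (DET n α β (4 * n)) := by
  obtain ⟨P, hPd, hPe⟩ := det_poly n (a : ℚ) (b : ℚ)
  have hdQ : (d : ℚ) ≠ 0 := by exact_mod_cast hd.ne'
  have hpQ : (p : ℚ) ≠ 0 := by exact_mod_cast hp.out.ne_zero
  have hprod0 : ∏ r ∈ B, r ≠ 0 := Finset.prod_ne_zero_iff.2 fun r hr => (hB r hr).ne_zero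
  have hprodQ : ((∏ r ∈ B, r : ℕ) : ℚ) ≠ 0 := by exact_mod_cast hprod0
  have hq0 : q ≠ 0 := by
    rintro rfl
    rw [zero_mul] at hdq
    omega
  have hqQ : (q : ℚ) ≠ 0 := by exact_mod_cast hq0
  have hx : P.eval ((d : ℚ)⁻¹) = DET n ((a : ℚ) / d) ((b : ℚ) / d) (4 * n) := by
    rw [hPe, div_eq_mul_inv, div_eq_mul_inv]
  by_cases hpB : p ∈ B
  · have hres := Pool.Agent.Y801.Z5S.interp (p := p) (P.comp (C ((p : ℚ)⁻¹) * X)) (4 * n) (by
      refine (Polynomial.natDegree_comp_le).trans ?_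
      have h1 : (C ((p : ℚ)⁻¹) * X : ℚ[X]).natDegree ≤ 1 :=
        (Polynomial.natDegree_C_mul_le _ _).trans Polynomial.natDegree_X_le
      calc P.natDegree * (C ((p : ℚ)⁻¹) * X : ℚ[X]).natDegree ≤ P.natDegree * 1 := Nat.mul_le_mul_left _ h1
        _ ≤ 4 * n := by omega) (q : ℚ) ((p : ℚ) * (d : ℚ)⁻¹) (padicNorm.of_nat q) (by
      have e1 : (q : ℚ) * ((p : ℚ) * (d : ℚ)⁻¹) = 1 / ((∏ r ∈ B.erase p, r : ℕ) : ℚ) := by
        have h1 : ∏ r ∈ B, r = p * ∏ r ∈ B.erase p, r := by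
          rw [← Finset.mul_prod_erase B (fun r => r) hpB]
        have h2 : ((∏ r ∈ B.erase p, r : ℕ) : ℚ) ≠ 0 := by
          have : ∏ r ∈ B.erase p, r ≠ 0 :=
            Finset.prod_ne_zero_iff.2 fun r hr => (hB r (Finset.mem_of_mem_erase hr)).ne_zero
          exact_mod_cast this
        rw [hdq, h1]
        generalize (∏ r ∈ B.erase p, r : ℕ) = R at h2
        push_cast
        field_simp
      rw [e1, padicNorm.div, norm_prod_one p (B.erase p) (fun r hr => hB r (Finset.mem_of_mem_erase hr))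
        (Finset.notMem_erase p B)]
      simp)
    obtain ⟨j, hj⟩ := hres
    have e2 : (P.comp (C ((p : ℚ)⁻¹) * X)).eval ((p : ℚ) * (d : ℚ)⁻¹) =
        DET n ((a : ℚ) / d) ((b : ℚ) / d) (4 * n) := by
      rw [Polynomial.eval_comp, Polynomial.eval_mul, Polynomial.eval_C, Polynomial.eval_X, ← mul_assoc,
        inv_mul_cancel₀ hpQ, one_mul, hx]
    have e3 : (P.comp (C ((p : ℚ)⁻¹) * X)).eval (j : ℚ) =
        DET n ((a : ℚ) * (j : ℚ) / p) ((b : ℚ) * (j : ℚ) / p) (4 * n) := by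
      rw [Polynomial.eval_comp, Polynomial.eval_mul, Polynomial.eval_C, Polynomial.eval_X, hPe]
      congr 1
      · rw [div_eq_mul_inv]; ring
      · rw [div_eq_mul_inv]; ring
    rw [e2, e3] at hj
    have hnp : ∀ c : ℤ, padicNorm p ((c : ℚ) * (j : ℚ) / p) ≤ p := by
      intro c
      rw [padicNorm.div, padicNorm.padicNorm_p_of_prime, div_inv_eq_mul]
      have h1 := padicNorm.of_int (p := p) (c * j)
      push_cast at h1
      have hp0 : (0 : ℚ) ≤ p := Nat.cast_nonneg p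
      calc _ ≤ 1 * (p : ℚ) := mul_le_mul_of_nonneg_right h1 hp0
        _ = p := one_mul _
    exact ⟨_, _, Or.inr ⟨hpB, hnp a, hnp b⟩, fun h => absurd hpB h, hj⟩
  · have hres := Pool.Agent.Y801.Z5S.interp (p := p) P (4 * n) hPd (q : ℚ) ((d : ℚ)⁻¹) (padicNorm.of_nat q) (by
      have e1 : (q : ℚ) * (d : ℚ)⁻¹ = 1 / ((∏ r ∈ B, r : ℕ) : ℚ) := by
        rw [hdq]
        push_cast at hprodQ ⊢
        field_simp
      rw [e1, padicNorm.div, norm_prod_one p B hB hpB]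
      simp)
    obtain ⟨j, hj⟩ := hres
    rw [hx, hPe] at hj
    have hQI : ∀ c : ℤ, QI 1 ((c : ℚ) * (j : ℚ)) := fun c => ⟨one_pos, c * j, by push_cast; ring⟩
    exact ⟨_, _, Or.inl ⟨hQI a, hQI b⟩, fun _ => ⟨hQI a, hQI b⟩, hj⟩

lemma QI_norm {p : ℕ} [Fact p.Prime] {u : ℚ} (h : QI 1 u) : padicNorm p u ≤ 1 := by
  obtain ⟨z, hz⟩ := h.2
  rw [Nat.cast_one, one_mul] at hz
  rw [hz]
  exact padicNorm.of_int z

/-- the local bounds for `log |z|_p` -/
theorem loc_bounds (K : ℝ) (hcell : ∀ c ∈ cells, CellG 0 c K ∧ (19 * c.v0 ≤ 3 * c.u0 ∨ CellG 1 c K))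
    (n : ℕ) (hn : 12 ≤ n) (a b : ℤ) (d q : ℕ)
    (hd : 0 < d) (B : Finset ℕ) (hB : ∀ r ∈ B, r.Prime ∧ n < r ∧ 3 * r ≤ 19 * n)
    (hdq : d = q * ∏ r ∈ B, r)
    (hz : ((4 * n).factorial : ℚ) * (q : ℚ) ^ (4 * n) * DET n ((a : ℚ) / d) ((b : ℚ) / d) (4 * n) ≠ 0) :
    LocB K n (fun p => Real.log ((padicNorm p (((4 * n).factorial : ℚ) * (q : ℚ) ^ (4 * n) *
      DET n ((a : ℚ) / d) ((b : ℚ) / d) (4 * n)) : ℚ) : ℝ)) ∧
    ∀ p : ℕ, p.Prime → 10 * n < p → padicNorm p (((4 * n).factorial : ℚ) * (q : ℚ) ^ (4 * n) *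
      DET n ((a : ℚ) / d) ((b : ℚ) / d) (4 * n)) ≤ 1 := by
  set z : ℚ := ((4 * n).factorial : ℚ) * (q : ℚ) ^ (4 * n) * DET n ((a : ℚ) / d) ((b : ℚ) / d) (4 * n) with hzdef
  have hn1 : 1 ≤ n := by omega
  refine ⟨⟨?_, ?_⟩, ?_⟩
  · intro p hp h40
    have hf : Fact p.Prime := ⟨hp⟩
    obtain ⟨α, β, -, h2, h3⟩ := loc_point n a b d q hd B (fun r hr => (hB r hr).1) hdq p
    have hpB : p ∉ B := fun h => by have := (hB p h).2.1; omega
    obtain ⟨hα, hβ⟩ := h2 hpB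
    rw [← hzdef] at h3
    have hzp := PM_z_pos p hp z hz
    have h3R : ((padicNorm p z : ℚ) : ℝ) ≤ ((padicNorm p (DET n α β (4 * n)) : ℚ) : ℝ) := by exact_mod_cast h3
    have hD0 : DET n α β (4 * n) ≠ 0 := by
      intro h0
      rw [h0, padicNorm.zero] at h3R
      push_cast at h3R
      linarith
    have e1 : ((1 : ℕ) : ℚ) ^ (4 * n) * DET n α β (4 * n) = DET n α β (4 * n) := by simp
    have h4 := PM_small (fun hn hp2 q α β hα hβ => D4_small_med hn hp2 q α β hα hβ)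
      (fun hn q α β hα hβ => D4_small_crude hn q α β hα hβ) n p hn1 hp 1 α β hα hβ (by rw [e1]; exact hD0)
    rw [e1] at h4
    exact (Real.log_le_log hzp h3R).trans h4
  · intro c hc p hp h12 m1 m2
    have hf : Fact p.Prime := ⟨hp⟩
    obtain ⟨α, β, h1, -, h3⟩ := loc_point n a b d q hd B (fun r hr => (hB r hr).1) hdq p
    rw [← hzdef] at h3
    have hp1 : (1 : ℚ) ≤ p := by exact_mod_cast hp.one_lt.le
    have h5 : ((padicNorm p (DET n α β (4 * n)) : ℚ) : ℝ) ≤ (p : ℝ) ^ ((c.AB.1 : ℝ) * n + c.AB.2 * p + K) := by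
      rcases h1 with ⟨hα, hβ⟩ | ⟨hpB, hα, hβ⟩
      · refine (hcell c hc).1 n hn1 p hp h12 m1 m2 _ ?_
        rw [pow_zero]
        exact D3w hn1 h12 1 le_rfl hp1 α β (QI_norm hα) (QI_norm hβ)
      · rcases (hcell c hc).2 with h | h
        · exfalso
          have h6 := (hB p hpB).2.2
          have h7 : 3 * (c.u0 * n) < 3 * (p * c.v0) := by omega
          have h8 : 19 * c.v0 * n ≤ 3 * c.u0 * n := Nat.mul_le_mul_right _ h
          have h9 : 3 * p * c.v0 ≤ 19 * n * c.v0 := Nat.mul_le_mul_right _ h6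
          have e1 : 3 * (c.u0 * n) = 3 * c.u0 * n := by ring
          have e2 : 3 * (p * c.v0) = 3 * p * c.v0 := by ring
          have e3 : 19 * n * c.v0 = 19 * c.v0 * n := by ring
          omega
        · refine h n hn1 p hp h12 m1 m2 _ ?_
          rw [pow_one]
          exact D3w hn1 h12 p hp1 le_rfl α β hα hβ
    have hzp := PM_z_pos p hp z hz
    have h3R : ((padicNorm p z : ℚ) : ℝ) ≤ ((padicNorm p (DET n α β (4 * n)) : ℚ) : ℝ) := by exact_mod_cast h3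
    have hp0 : (0 : ℝ) < p := by exact_mod_cast hp.pos
    have h6 := Real.log_le_log hzp (h3R.trans h5)
    rwa [Real.log_rpow hp0] at h6
  · intro p hp h14
    have hf : Fact p.Prime := ⟨hp⟩
    obtain ⟨α, β, -, h2, h3⟩ := loc_point n a b d q hd B (fun r hr => (hB r hr).1) hdq p
    have hpB : p ∉ B := fun h => by have := (hB p h).2.2; omega
    obtain ⟨hα, hβ⟩ := h2 hpB
    rw [← hzdef] at h3
    refine h3.trans ?_
    have h4 := P_large 1 α β hα hβ n hn1 p hp h14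
    have e1 : ((1 : ℕ) : ℚ) ^ (4 * n) * DET n α β (4 * n) = DET n α β (4 * n) := by simp
    rwa [e1] at h4

end

end Pool.Agent.Q203.PZ
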