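import Pool.Agent.H383.Z34.G1Mfin

/-! The comparison of `R` on the line with the comparison product, for all `n = 24 N + r`, `r < 24`. -/

open Polynomial Pool.Agent.H337R2 Pool.Agent.ZF

namespace Pool.Agent.Q203.PZ

noncomputable section

set_option autoImplicit false

open Pool.Agent.H336R2.HD (PF1 good cpr cpr_nonneg chain one_le_PF1 g215_ge ch1)
open G1M (ch2 ch3)

/-- chain 4, with a longer last block -/
def ch4' (n N : ℕ) : List (ℕ × ℕ × ℚ) :=
  [(10 * n, 24 * N, 21/2), (11 * n, 24 * N, 23/2), (12 * n, 48 * N, 13), (14 * n, 96 * N, 16),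
   (18 * n, 192 * N, 22), (26 * n, 576 * N, 38), (50 * n, 1200 * N, 75), (100 * n, 2400 * N, 150),
   (200 * n, 50, 215)]

variable {n N : ℕ}

lemma cast_ge {r : ℕ} (hn : n = 24 * N + r) : (24 : ℝ) * N ≤ n := by
  rw [hn]
  push_cast
  have : (0 : ℝ) ≤ r := Nat.cast_nonneg r
  linarith

lemma good1' {r : ℕ} (hN : 1 ≤ N) (hn : n = 24 * N + r) : good n (2 * n) 0 (ch1 n N) := by
  have h1 : (1 : ℝ) ≤ N := by exact_mod_cast hN
  have h2 := cast_ge hn
  simp only [ch1, good]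
  refine ⟨by omega, by omega, by norm_num, ?_, by omega, by omega, by norm_num, ?_, by omega, by omega, by norm_num, ?_, by omega, by omega, by norm_num, ?_, by omega, by omega, by norm_num, ?_, by omega, by omega, by norm_num, ?_, by omega, by omega, by norm_num, ?_, by omega, by omega, by norm_num, ?_, by omega, by omega, by norm_num, ?_, by omega, by omega, by norm_num, ?_, by omega, by omega, by norm_num, ?_, by omega, by omega, by norm_num, ?_, by omega, by omega, by norm_num, ?_, by omega, by omega, by norm_num, ?_, by omega, by omega, by norm_num, ?_, by omega, by omega, by norm_num, ?_, by omega⟩ <;>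
    push_cast <;> linarith

lemma good2' {r : ℕ} (hN : 1 ≤ N) (hn : n = 24 * N + r) : good n (3 * n) (2 * n) (ch2 n N) := by
  have h1 : (1 : ℝ) ≤ N := by exact_mod_cast hN
  have h2 := cast_ge hn
  simp only [ch2, good]
  refine ⟨by omega, by omega, by norm_num, ?_, by omega, by omega, by norm_num, ?_, by omega⟩ <;>
    push_cast <;> linarith

lemma good3' {r : ℕ} (hN : 1 ≤ N) (hn : n = 24 * N + r) : good n (10 * n) (3 * n) (ch3 n N) := by
  have h1 : (1 : ℝ) ≤ N := by exact_mod_cast hN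
  have h2 := cast_ge hn
  simp only [ch3, good]
  refine ⟨by omega, by omega, by norm_num, ?_, by omega, by omega, by norm_num, ?_, by omega,
    by omega, by norm_num, ?_, by omega, by omega, by norm_num, ?_, by omega, by omega,
    by norm_num, ?_, by omega, by omega, by norm_num, ?_, by omega, by omega,
    by norm_num, ?_, by omega⟩ <;>
    push_cast <;> linarith

lemma good4' {r : ℕ} (hN : 1 ≤ N) (hn : n = 24 * N + r) :
    good n (200 * n + 50) (10 * n) (ch4' n N) := by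
  have h1 : (1 : ℝ) ≤ N := by exact_mod_cast hN
  have h2 := cast_ge hn
  simp only [ch4', good]
  refine ⟨by omega, by omega, by norm_num, ?_, by omega, by omega, by norm_num, ?_, by omega,
    by omega, by norm_num, ?_, by omega, by omega, by norm_num, ?_, by omega, by omega,
    by norm_num, ?_, by omega, by omega, by norm_num, ?_, by omega, by omega,
    by norm_num, ?_, by omega, by omega, by norm_num, ?_, by omega, by omega,
    by norm_num, ?_, by omega⟩ <;>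
    push_cast <;> linarith

lemma key_prod' (g : ℚ → ℝ) (n N : ℕ) :
    cpr g (ch1 n N) * cpr g (ch2 n N) ^ 4 * cpr g (ch3 n N) ^ 6 * cpr g (ch4' n N) ^ 4 =
    ((FXG.map fun x => g x.1 ^ x.2).prod ^ N) ^ 2 * g 215 ^ 200 := by
  simp only [cpr, ch1, ch2, ch3, ch4', FXG, List.map_cons, List.map_nil, List.prod_cons,
    List.prod_nil]
  ring

/-- **the comparison** -/
theorem G1r : ∃ (C : ℝ) (K : ℕ), 1 ≤ C ∧ ∀ N : ℕ, 1 ≤ N → ∀ n r : ℕ, n = 24 * N + r → ∀ y : ℝ,
    NG n y * Real.exp (-(2 * Real.pi * |y|)) * (1 + y ^ 2) ^ 100 * FXpG ((y / n) ^ 2) ^ N ≤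
      C * (n : ℝ) ^ K * Real.exp (n * PhiG) := by
  obtain ⟨C, K, hC, h0⟩ := G1_zero
  refine ⟨215 ^ 200 * (C + 1), K + 200, by
    have : (1 : ℝ) ≤ 215 ^ 200 := one_le_pow₀ (by norm_num)
    exact one_le_mul_of_one_le_of_one_le this (by linarith), ?_⟩
  intro N hN n r hnN y
  have hn : 1 ≤ n := by omega
  have hn' : (1 : ℝ) ≤ n := by exact_mod_cast hn
  obtain ⟨g, hg⟩ : ∃ g : ℚ → ℝ, ∀ q : ℚ, g q = 1 + (y / n) ^ 2 / (q : ℝ) ^ 2 := ⟨_, fun _ => rfl⟩
  have hg0 : ∀ q, 0 ≤ g q := fun q => by rw [hg]; positivity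
  have hR := G1_ratio hn y (200 * n + 50) (by omega)
  simp only [Finset.prod_pow] at hR
  change (NG n y * Real.exp (-(2 * Real.pi * |y|))) ^ 2 *
      (PF1 y 0 (2 * n) * PF1 y (2 * n) (3 * n) ^ 4 * PF1 y (3 * n) (10 * n) ^ 6 *
       PF1 y (10 * n) (200 * n + 50) ^ 4) ≤ NG n 0 ^ 2 at hR
  have k1 := chain n hn y g hg _ _ _ (good1' hN hnN)
  have k2 := chain n hn y g hg _ _ _ (good2' hN hnN)
  have k3 := chain n hn y g hg _ _ _ (good3' hN hnN)
  have k4 := chain n hn y g hg _ _ _ (good4' hN hnN)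
  have n1 := cpr_nonneg g hg0 (ch1 n N)
  have n2 := cpr_nonneg g hg0 (ch2 n N)
  have n3 := cpr_nonneg g hg0 (ch3 n N)
  have n4 := cpr_nonneg g hg0 (ch4' n N)
  have p1 := n1.trans k1
  have p2 := n2.trans k2
  have p3 := n3.trans k3
  have p4 := n4.trans k4
  have hS : cpr g (ch1 n N) * cpr g (ch2 n N) ^ 4 * cpr g (ch3 n N) ^ 6 * cpr g (ch4' n N) ^ 4 ≤
      PF1 y 0 (2 * n) * PF1 y (2 * n) (3 * n) ^ 4 * PF1 y (3 * n) (10 * n) ^ 6 *
       PF1 y (10 * n) (200 * n + 50) ^ 4 := by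
    gcongr
  rw [key_prod'] at hS
  have hF : FXpG ((y / n) ^ 2) = (FXG.map fun x => g x.1 ^ x.2).prod := by
    simp only [FXpG, hg]
  rw [← hF] at hS
  have hF0 : 0 ≤ FXpG ((y / n) ^ 2) := by
    rw [hF]
    apply List.prod_nonneg
    intro z hz
    obtain ⟨w, _, rfl⟩ := List.mem_map.mp hz
    exact pow_nonneg (hg0 _) _
  have hg215 : 1 + y ^ 2 ≤ (215 * (n : ℝ)) ^ 2 * g 215 := by
    rw [hg]
    have := g215_ge hn y
    push_cast
    exact this
  have hN0 : 0 ≤ NG n y := G1M.NG_nonneg n y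
  have hR0 : 0 ≤ NG n 0 := G1M.NG_nonneg n 0
  have h1' := h0 n hn
  have hY1 : 1 ≤ 1 + y ^ 2 := le_add_of_nonneg_right (sq_nonneg y)
  have hA := (mul_le_mul_of_nonneg_left hS (sq_nonneg (NG n y * Real.exp (-(2 * Real.pi * |y|))))).trans hR
  have hE0 : 0 ≤ Real.exp (-(2 * Real.pi * |y|)) := (Real.exp_pos _).le
  have hG0 : 0 ≤ g 215 := hg0 _
  have hX0 : 0 ≤ 215 * (n : ℝ) := by positivity
  have hsq : (NG n y * Real.exp (-(2 * Real.pi * |y|)) * (1 + y ^ 2) ^ 100 *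
      FXpG ((y / n) ^ 2) ^ N) ^ 2 ≤ ((215 * (n : ℝ)) ^ 200 * NG n 0) ^ 2 := by
    have hF0' : 0 ≤ FXpG ((y / n) ^ 2) ^ N := pow_nonneg hF0 _
    generalize FXpG ((y / n) ^ 2) ^ N = F at hA hF0' ⊢
    generalize Real.exp (-(2 * Real.pi * |y|)) = e at hA hE0 ⊢
    generalize 1 + y ^ 2 = Y at hY1 hg215 ⊢
    generalize NG n y = w at hA hN0 ⊢
    generalize NG n 0 = w0 at hA hR0 ⊢
    generalize 215 * (n : ℝ) = X at hg215 hX0 ⊢
    generalize g 215 = G at hA hg215 hG0 ⊢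
    have hY0 : 0 ≤ Y := by linarith
    have h1 : Y ^ 200 ≤ (X ^ 2 * G) ^ 200 := pow_le_pow_left₀ hY0 hg215 200
    have hwe : 0 ≤ (w * e) ^ 2 * F ^ 2 := by positivity
    have h4 : (w * e) ^ 2 * F ^ 2 * (X ^ 2 * G) ^ 200 ≤ w0 ^ 2 * X ^ 400 := by
      have h5 := mul_le_mul_of_nonneg_right hA (pow_nonneg hX0 400)
      calc (w * e) ^ 2 * F ^ 2 * (X ^ 2 * G) ^ 200 = (w * e) ^ 2 * (F ^ 2 * G ^ 200) * X ^ 400 := by
            rw [mul_pow (X ^ 2) G, ← pow_mul]; ring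
        _ ≤ _ := h5
    calc (w * e * Y ^ 100 * F) ^ 2 = (w * e) ^ 2 * F ^ 2 * Y ^ 200 := by ring
      _ ≤ (w * e) ^ 2 * F ^ 2 * (X ^ 2 * G) ^ 200 := mul_le_mul_of_nonneg_left h1 hwe
      _ ≤ w0 ^ 2 * X ^ 400 := h4
      _ = _ := by ring
  have hfin := (le_abs_self _).trans (abs_le_of_sq_le_sq hsq (by positivity))
  calc NG n y * Real.exp (-(2 * Real.pi * |y|)) * (1 + y ^ 2) ^ 100 * FXpG ((y / n) ^ 2) ^ N
      ≤ (215 * (n : ℝ)) ^ 200 * NG n 0 := hfin
    _ ≤ (215 * (n : ℝ)) ^ 200 * (C * (n : ℝ) ^ K * Real.exp (n * PhiG)) :=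
        mul_le_mul_of_nonneg_left h1' (by positivity)
    _ = 215 ^ 200 * C * (n : ℝ) ^ (K + 200) * Real.exp (n * PhiG) := by
        rw [mul_pow, pow_add]; ring
    _ ≤ 215 ^ 200 * (C + 1) * (n : ℝ) ^ (K + 200) * Real.exp (n * PhiG) := by
        have : C ≤ C + 1 := by linarith
        gcongr

end

end Pool.Agent.Q203.PZ
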