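import Pool.Agent.H387R3.ZF.Z

/-!
# The p-adic size of the determinant when `|α|_p, |β|_p ≤ T` with `1 ≤ T ≤ p`
-/

open Polynomial Pool.Agent.H337R2 Pool.Agent.ZF

namespace Pool.Agent.Q203.PZ

noncomputable section

set_option autoImplicit false

lemma mulT {p : ℕ} [Fact p.Prime] {v x W T : ℚ} (hv : padicNorm p v ≤ T)
    (hx : padicNorm p x * T ≤ W) : padicNorm p (v * x) ≤ W := by
  rw [padicNorm.mul]
  calc _ ≤ T * padicNorm p x := mul_le_mul_of_nonneg_right hv (padicNorm.nonneg _)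
    _ = padicNorm p x * T := mul_comm _ _
    _ ≤ W := hx

lemma sumT {p : ℕ} [Fact p.Prime] {T W : ℚ} (hT : 0 < T) (hW : 0 ≤ W) (s : Finset ℕ) (f : ℕ → ℚ)
    (h : ∀ k ∈ s, padicNorm p (f k) * T ≤ W) : padicNorm p (∑ k ∈ s, f k) * T ≤ W := by
  rw [← le_div_iff₀ hT]
  apply padicNorm.sum_le' _ (by positivity)
  intro k hk
  rw [le_div_iff₀ hT]
  exact h k hk

lemma termT {p : ℕ} [Fact p.Prime] {x1 x2 a1 a2 b1 b2 W T : ℚ} (hT : 0 < T)
    (h1 : padicNorm p x1 ≤ 1) (h2 : padicNorm p x2 ≤ 1)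
    (h3 : padicNorm p a1 * padicNorm p b1 * T ≤ W) (h4 : padicNorm p a2 * padicNorm p b2 * T ≤ W) :
    padicNorm p (x1 * a1 * b1 + x2 * a2 * b2) * T ≤ W := by
  rw [← le_div_iff₀ hT] at h3 h4 ⊢
  exact C2_term h1 h2 h3 h4

theorem C2w {n p : ℕ} [Fact p.Prime] (hn : 1 ≤ n) (hp2 : 10 * n < p ^ 2) (T : ℚ) (hT1 : 1 ≤ T) (hTp : T ≤ p)
    (α β : ℚ) (hα : padicNorm p α ≤ T) (hβ : padicNorm p β ≤ T) (E : ℚ[X]) (W : ℚ) (hW : 0 ≤ W)
    (A : ℕ → ℚ) (hA : ∀ k, 0 ≤ A k)
    (hE : ∀ k ∈ sF n, PB p (p : ℚ) (A k) (TS (-(k : ℚ)) E))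
    (hE1 : ∀ k ∈ sF n, PB p 1 1 (TS (-(k : ℚ)) E))
    (h : ∀ k ∈ sF n, (p : ℚ) ^ (2 - eF n p k) * A k ≤ W ∨
      (padicNorm p (cF n) * T ≤ W ∧ k < 2 * n + 1 + p ∧ ∀ k' ∈ sF n, k' ≠ k → ¬ (p : ℤ) ∣ (k' : ℤ) - k)) :
    padicNorm p (xf n α β (PF n * E)) ≤ W := by
  have hpp : 0 < p := (Fact.out : p.Prime).pos
  have hp0 : (p : ℚ) ≠ 0 := by exact_mod_cast hpp.ne'
  have hp1 : (1 : ℚ) ≤ p := by exact_mod_cast hpp
  have hT0 : 0 < T := by linarith
  have hpz : ∀ z : ℤ, (0 : ℚ) ≤ (p : ℚ) ^ z := fun z => zpow_nonneg (by positivity) z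
  have key : ∀ i j : ℕ, j ≤ i + 2 → ∀ k ∈ sF n,
      padicNorm p (pa (sF n) mF (PF n * E) k i) * padicNorm p (hs j (k - 2 * n - 1)) ≤ W := by
    intro i j hij k hk
    have hkI := Finset.mem_Icc.1 hk
    rcases h k hk with h3 | ⟨hc, hlt, h4⟩
    · have hpa := C1_pa (p := p) hn hp2 E hk (A k) (hA k) (hE k hk) i
      have h4 := hs_norm_med (p := p) j (k - 2 * n - 1) (by omega)
      refine (mul_le_mul hpa h4 (padicNorm.nonneg _)
        (mul_nonneg (hpz _) (hA k))).trans (le_trans ?_ h3)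
      rw [← zpow_natCast (p : ℚ) j, mul_right_comm, ← zpow_add₀ hp0]
      apply mul_le_mul_of_nonneg_right _ (hA k)
      apply zpow_le_zpow_right₀ hp1
      have : (j : ℤ) ≤ i + 2 := by exact_mod_cast hij
      linarith
    · have hc' : padicNorm p (cF n) ≤ W := le_trans (le_mul_of_one_le_right (padicNorm.nonneg _) hT1) hc
      have hpa : padicNorm p (pa (sF n) mF (PF n * E) k i) ≤ W := by
        refine (C1_pa_int hn E hk 1 zero_le_one (hE1 k hk) i h4).trans ?_
        rw [mul_one]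
        exact hc'
      have h5 := hs_norm_small (p := p) j (k - 2 * n - 1) (by omega)
      calc _ ≤ W * 1 := mul_le_mul hpa h5 (padicNorm.nonneg _) hW
        _ = W := mul_one W
  have key2 : ∀ i j : ℕ, j ≤ i + 1 → ∀ k ∈ sF n,
      padicNorm p (pa (sF n) mF (PF n * E) k i) * T ≤ W ∧
      padicNorm p (pa (sF n) mF (PF n * E) k i) * padicNorm p (hs j (k - 2 * n - 1)) * T ≤ W := by
    intro i j hij k hk
    have hkI := Finset.mem_Icc.1 hk
    rcases h k hk with h3 | ⟨hc, hlt, h4⟩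
    · have hpa := C1_pa (p := p) hn hp2 E hk (A k) (hA k) (hE k hk) i
      constructor
      · refine (mul_le_mul hpa hTp hT0.le (mul_nonneg (hpz _) (hA k))).trans (le_trans ?_ h3)
        rw [mul_right_comm]
        apply mul_le_mul_of_nonneg_right _ (hA k)
        calc (p : ℚ) ^ (-eF n p k - i : ℤ) * p = (p : ℚ) ^ (-eF n p k - i + 1 : ℤ) := by
              rw [zpow_add₀ hp0, zpow_one]
          _ ≤ _ := by
              apply zpow_le_zpow_right₀ hp1
              have : (0 : ℤ) ≤ i := by positivity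
              linarith
      · have h4 := hs_norm_med (p := p) j (k - 2 * n - 1) (by omega)
        refine (mul_le_mul (mul_le_mul hpa h4 (padicNorm.nonneg _) (mul_nonneg (hpz _) (hA k))) hTp hT0.le
          (mul_nonneg (mul_nonneg (hpz _) (hA k)) (by positivity))).trans (le_trans ?_ h3)
        have e : (p : ℚ) ^ (-eF n p k - i : ℤ) * A k * (p : ℚ) ^ j * p =
            (p : ℚ) ^ (-eF n p k - i + j + 1 : ℤ) * A k := by
          rw [zpow_add₀ hp0, zpow_add₀ hp0, zpow_one, zpow_natCast]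
          ring
        rw [e]
        apply mul_le_mul_of_nonneg_right _ (hA k)
        apply zpow_le_zpow_right₀ hp1
        have : (j : ℤ) ≤ i + 1 := by exact_mod_cast hij
        linarith
    · have hpa : padicNorm p (pa (sF n) mF (PF n * E) k i) ≤ padicNorm p (cF n) := by
        have := C1_pa_int (p := p) hn E hk 1 zero_le_one (hE1 k hk) i h4
        rwa [mul_one] at this
      have hpaT : padicNorm p (pa (sF n) mF (PF n * E) k i) * T ≤ W :=
        (mul_le_mul_of_nonneg_right hpa hT0.le).trans hc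
      refine ⟨hpaT, ?_⟩
      have h5 := hs_norm_small (p := p) j (k - 2 * n - 1) (by omega)
      rw [mul_right_comm]
      calc _ ≤ W * 1 := mul_le_mul hpaT h5 (padicNorm.nonneg _) hW
        _ = W := mul_one W
  have hnat : ∀ m : ℕ, padicNorm p (m : ℚ) ≤ 1 := fun m => padicNorm.of_nat m
  have h6 : padicNorm p (6 : ℚ) ≤ 1 := by exact_mod_cast hnat 6
  have h2 : padicNorm p (2 : ℚ) ≤ 1 := by exact_mod_cast hnat 2
  have h3 : padicNorm p (3 : ℚ) ≤ 1 := by exact_mod_cast hnat 3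
  have e : xf n α β (PF n * E) = 6 * (α * rho n (PF n * E)) -
      (h4 n (PF n * E) - β * Pool.Agent.ZF.h3 n (PF n * E)) := by
    unfold xf
    ring
  rw [e]
  refine padicNorm.sub.trans (max_le ?_ (padicNorm.sub.trans (max_le ?_ ?_)))
  · refine C2_mul1 h6 (mulT hα ?_)
    unfold rho
    apply sumT hT0 hW
    intro k hk
    exact (key2 2 0 (by omega) k hk).1
  · unfold h4
    apply padicNorm.sum_le' _ hW
    intro k hk
    exact C2_term h6 h2 (key 2 4 (by omega) k hk) (key 1 3 (by omega) k hk)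
  · refine mulT hβ ?_
    unfold Pool.Agent.ZF.h3
    apply sumT hT0 hW
    intro k hk
    exact termT hT0 h6 h3 (key2 2 3 (by omega) k hk).2 (key2 1 2 (by omega) k hk).2

/-- the estimate of the determinant for a given number `D` -/
def DetT (T : ℚ) (n p : ℕ) (D : ℚ) : Prop := ∀ (μ : ℤ) (S : Finset ℕ), S ⊆ Finset.range p →
    (∀ k ∈ sF n, k % p ∈ S ∨
      (padicNorm p (cF n) * T ≤ (p : ℚ) ^ μ ∧ k < 2 * n + 1 + p ∧
        ∀ k' ∈ sF n, k' ≠ k → ¬ (p : ℤ) ∣ (k' : ℤ) - k)) →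
    padicNorm p D ≤ (p : ℚ) ^ (((4 * n : ℕ) : ℤ) * μ + ∑ κ ∈ S, Pool.Agent.ZF.TT (2 - eF n p κ - μ))

theorem D3w {n p : ℕ} [Fact p.Prime] (hn : 1 ≤ n) (hp2 : 10 * n < p ^ 2) (T : ℚ) (hT1 : 1 ≤ T) (hTp : T ≤ p)
    (α β : ℚ) (hα : padicNorm p α ≤ T) (hβ : padicNorm p β ≤ T) : DetT T n p (DET n α β (4 * n)) := by
  intro μ S _ h
  set m : ℕ := 4 * n with hm
  have hpp : p.Prime := Fact.out
  have hp0 : (0 : ℚ) < p := by exact_mod_cast hpp.pos
  have hp1 : (1 : ℚ) ≤ p := by exact_mod_cast hpp.one_le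
  obtain ⟨κ, s, hs1, hs2, hs3⟩ := D3_pick2 S (fun k => 2 - eF n p k) μ m
  have hmat : padicNorm p (Matrix.of fun i j : Fin m =>
      NL n α β (Pool.Agent.LZ.D3_ND κ i * Pool.Agent.LZ.D3_ND κ j)).det ≤
      ∏ i ∈ Finset.range m, (p : ℚ) ^ (s i) := by
    refine Pool.Agent.H336R2.HD.A3_padic_det p m _ (fun i => (p : ℚ) ^ (s i))
      (fun i => by positivity) fun i j => ?_
    rw [Matrix.of_apply, NL_apply]
    have hW : padicNorm p (xf n α β (PF n *
        (Pool.Agent.LZ.D3_ND κ i * Pool.Agent.LZ.D3_ND κ j))) ≤ (p : ℚ) ^ ((s i + s j) / 2) := by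
      refine C2w hn hp2 T hT1 hTp α β hα hβ _ ((p : ℚ) ^ ((s i + s j) / 2)) (by positivity)
        (fun k => (p : ℚ)⁻¹ ^ ((Finset.range i.1).filter fun l => κ l = k % p).card *
          (p : ℚ)⁻¹ ^ ((Finset.range j.1).filter fun l => κ l = k % p).card)
        (fun k => by positivity) (fun k hk => ?_) (fun k hk => ?_) (fun k hk => ?_)
      · exact Pool.Agent.LZ.D3_NN_PB p k κ κ i.1 j.1
      · exact Pool.Agent.LZ.D3_NN_PB1 p 1 le_rfl k κ κ i.1 j.1
      · rcases h k hk with h1 | h1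
        · left
          have h2 := hs3 _ h1 i
          have h3 := hs3 _ h1 j
          rw [D3_eF_mod] at h2 h3
          set a := ((Finset.range i.1).filter fun l => κ l = k % p).card
          set b := ((Finset.range j.1).filter fun l => κ l = k % p).card
          have e : (p : ℚ) ^ (2 - eF n p k) * ((p : ℚ)⁻¹ ^ a * (p : ℚ)⁻¹ ^ b) =
              (p : ℚ) ^ (2 - eF n p k - a - b : ℤ) := by
            generalize 2 - eF n p k = z
            rw [zpow_sub₀ hp0.ne', zpow_sub₀ hp0.ne', zpow_natCast, zpow_natCast,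
              inv_pow, inv_pow, div_eq_mul_inv, div_eq_mul_inv, mul_assoc]
          rw [e]
          refine zpow_le_zpow_right₀ hp1 ?_
          omega
        · right
          refine ⟨h1.1.trans (zpow_le_zpow_right₀ hp1 ?_), h1.2⟩
          have h2 := hs1 i
          have h3 := hs1 j
          omega
    calc padicNorm p (xf n α β (PF n *
          (Pool.Agent.LZ.D3_ND κ i * Pool.Agent.LZ.D3_ND κ j))) ^ 2
        ≤ ((p : ℚ) ^ ((s i + s j) / 2)) ^ 2 := pow_le_pow_left₀ (padicNorm.nonneg _) hW 2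
      _ = (p : ℚ) ^ ((s i + s j) / 2 * 2) := by
          rw [← zpow_natCast, ← zpow_mul]
          rfl
      _ ≤ (p : ℚ) ^ (s i + s j) := zpow_le_zpow_right₀ hp1 (by omega)
      _ = (p : ℚ) ^ (s i) * (p : ℚ) ^ (s j) := zpow_add₀ hp0.ne' _ _
  rw [Pool.Agent.H336R2.HD.A1_det_monic (NL n α β) m (Pool.Agent.LZ.D3_ND κ)
        (fun i _ => Pool.Agent.LZ.D3_ND_monic κ i)] at hmat
  refine le_trans hmat ?_
  rw [Pool.Agent.H574R2.D3.D3_prod_zpow (p : ℚ) hp0.ne' s m]
  exact zpow_le_zpow_right₀ hp1 hs2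

open E4aux in
/-- the cell estimate -/
theorem cellT (t : ℕ) (c : Cell) (hc : c.ok = true)
    (hx : c.full = true ∨ 3 * (c.fl 2 : ℤ) - 2 * (c.fl 7 : ℤ) + t ≤ c.mu) : ∃ K0 : ℝ, ∀ n : ℕ, 1 ≤ n →
    ∀ p : ℕ, p.Prime → 10 * n < p ^ 2 →
    c.u0 * n < p * c.v0 → p * c.v1 ≤ c.u1 * n → ∀ D : ℚ, DetT ((p : ℚ) ^ t) n p D →
    ((padicNorm p D : ℚ) : ℝ) ≤ (p : ℝ) ^ ((c.AB.1 : ℝ) * n + c.AB.2 * p + K0) := by
  classical
  have hfin : ∀ {n p : ℕ} {D : ℚ} (_ : p.Prime) {z K : ℤ} (_ : padicNorm p D ≤ (p : ℚ) ^ z)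
      (_ : z ≤ c.AB.1 * n + c.AB.2 * p + K),
      ((padicNorm p D : ℚ) : ℝ) ≤ (p : ℝ) ^ ((c.AB.1 : ℝ) * n + c.AB.2 * p + K) := by
    intro n p D hp z K h hz
    have h1 : ((padicNorm p D : ℚ) : ℝ) ≤ (((p : ℚ) ^ z : ℚ) : ℝ) := by
      exact_mod_cast h
    refine h1.trans ?_
    rw [Rat.cast_zpow, Rat.cast_natCast, ← Real.rpow_intCast]
    refine Real.rpow_le_rpow_of_exponent_le (by exact_mod_cast hp.one_lt.le) ?_
    exact_mod_cast hz
  refine ⟨((Pool.Agent.ZF.TT (2 - c.e0 - c.mu) : ℤ) : ℝ), ?_⟩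
  intro n hn p hp hp2 h0 h1 D hD
  have : Fact p.Prime := ⟨hp⟩
  have he0 := E4_eF0 @E1_fl hc hp.pos h0 h1
  by_cases hfull : c.full = true
  · -- all classes charged
    have hd := hD c.mu (Finset.range p) (Finset.Subset.refl _)
      (fun k _ => Or.inl (Finset.mem_range.2 (Nat.mod_lt _ hp.pos)))
    refine hfin hp hd ?_
    have hs := E2_sum hc hn hp h0 h1 (fun κ => Pool.Agent.ZF.TT (2 - eF n p κ - c.mu)) (Pool.Agent.ZF.TT (2 - c.e0 - c.mu))
      (TT_nonneg _) (le_of_eq (by rw [he0]))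
      (by
        intro r _ _
        have hcost : c.cost (eF n p r) ((cnt p (2 * n + 1) (10 * n) r : ℕ) : ℤ) =
            Pool.Agent.ZF.TT (2 - eF n p r - c.mu) := by
          unfold Cell.cost
          rw [if_pos hfull]
        exact le_of_eq hcost.symm)
    push_cast
    linarith
  · -- not full
    have hmu : 3 * (c.fl 2 : ℤ) - 2 * (c.fl 7 : ℤ) + t ≤ c.mu := by
      rcases hx with h2 | h2
      · exact absurd h2 hfull
      · exact h2
    have f2 := E1_fl hc hp.pos h0 h1 (a := 2) (by decide)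
    have f7 := E1_fl hc hp.pos h0 h1 (a := 7) (by decide)
    set S : Finset ℕ := (Finset.range p).filter fun κ => 2 ≤ cnt p (2 * n + 1) (10 * n) κ with hS
    have hpnat : (1 : ℚ) ≤ (p : ℚ) := by exact_mod_cast hp.one_lt.le
    have hpne : (p : ℚ) ≠ 0 := by exact_mod_cast hp.ne_zero
    have hd := hD c.mu S (Finset.filter_subset _ _)
      (by
        intro k hk
        by_cases hkS : k % p ∈ S
        · exact Or.inl hkS
        · right
          have hkI := Finset.mem_Icc.1 hk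
          have hkm : (p : ℤ) ∣ (k : ℤ) - ((k % p : ℕ) : ℤ) := by
            refine ⟨((k / p : ℕ) : ℤ), ?_⟩
            have := Nat.div_add_mod k p
            have h2 : (k : ℤ) = (p : ℤ) * ((k / p : ℕ) : ℤ) + ((k % p : ℕ) : ℤ) := by
              exact_mod_cast this.symm
            linarith
          -- no other site in `(2n, 10n]` in the class
          have hno : ∀ k' : ℕ, 2 * n + 1 ≤ k' → k' ≤ 10 * n → k' ≠ k →
              ¬ (p : ℤ) ∣ (k' : ℤ) - k := by
            intro k' hk1 hk2 hne hdvd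
            apply hkS
            rw [hS, Finset.mem_filter, Finset.mem_range]
            refine ⟨Nat.mod_lt _ hp.pos, ?_⟩
            have hk'm : (p : ℤ) ∣ (k' : ℤ) - ((k % p : ℕ) : ℤ) := by
              have h2 := dvd_add hdvd hkm
              have e : ((k' : ℤ) - k) + ((k : ℤ) - ((k % p : ℕ) : ℤ)) =
                  (k' : ℤ) - ((k % p : ℕ) : ℤ) := by ring
              rwa [e] at h2
            have hsub : ({k, k'} : Finset ℕ) ⊆ (Finset.Icc (2 * n + 1) (10 * n)).filter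
                (fun m : ℕ => (p : ℤ) ∣ (m : ℤ) - ((k % p : ℕ) : ℤ)) := by
              intro x hx2
              rw [Finset.mem_insert, Finset.mem_singleton] at hx2
              rw [Finset.mem_filter]
              rcases hx2 with rfl | rfl
              · exact ⟨Finset.mem_Icc.2 ⟨by omega, hkI.2⟩, hkm⟩
              · exact ⟨Finset.mem_Icc.2 ⟨hk1, hk2⟩, hk'm⟩
            have hcard := Finset.card_le_card hsub
            rw [Finset.card_pair (Ne.symm hne)] at hcard
            exact hcard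
          refine ⟨?_, ?_, ?_⟩
          · rw [cF_norm hp2, f2, f7, ← zpow_natCast, ← zpow_add₀ hpne]
            exact zpow_le_zpow_right₀ hpnat hmu
          · by_contra hlt
            push Not at hlt
            have hpp := hp.pos
            refine hno (k - p) (by omega) (by omega) (by omega) ?_
            refine ⟨-1, ?_⟩
            have : ((k - p : ℕ) : ℤ) = (k : ℤ) - p := by
              rw [Nat.cast_sub (by omega)]
            rw [this]
            ring
          · intro k' hk' hne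
            have hk'I := Finset.mem_Icc.1 hk'
            exact hno k' (by omega) hk'I.2 hne)
    refine hfin hp hd ?_
    have hsum : ∑ κ ∈ S, Pool.Agent.ZF.TT (2 - eF n p κ - c.mu) =
        ∑ κ ∈ Finset.range p, if 2 ≤ cnt p (2 * n + 1) (10 * n) κ then Pool.Agent.ZF.TT (2 - eF n p κ - c.mu)
          else 0 := by
      rw [hS, Finset.sum_filter]
    rw [hsum]
    have hs := E2_sum hc hn hp h0 h1 (fun κ => if 2 ≤ cnt p (2 * n + 1) (10 * n) κ then
        Pool.Agent.ZF.TT (2 - eF n p κ - c.mu) else 0) (Pool.Agent.ZF.TT (2 - c.e0 - c.mu)) (TT_nonneg _)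
      (by
        show (if 2 ≤ cnt p (2 * n + 1) (10 * n) 0 then Pool.Agent.ZF.TT (2 - eF n p 0 - c.mu) else 0) ≤ _
        split_ifs
        · rw [he0]
        · exact TT_nonneg _)
      (by
        intro r _ hr
        show (if 2 ≤ cnt p (2 * n + 1) (10 * n) r then Pool.Agent.ZF.TT (2 - eF n p r - c.mu) else 0) ≤ _
        unfold Cell.cost
        rw [if_neg hfull]
        split_ifs with h2 h3 h3
        · exact le_rfl
        · exact absurd (by exact_mod_cast h2) h3
        · exact absurd (by exact_mod_cast h3) h2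
        · exact le_rfl)
    push_cast at hs ⊢
    linarith

end

end Pool.Agent.Q203.PZ
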