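import Pool.Agent.Q203.PZ.Sys
import Pool.Agent.H312R3.M34.Rho

/-!
# The corner inequalities at the poles
-/

open Polynomial Pool.Agent.H337R2 Pool.Agent.ZF

namespace Pool.Agent.Q203.PZ

noncomputable section

set_option autoImplicit false

/-- the weight of the pole `-k` -/
def wk (n k : ℕ) : ℝ := |(((PF n).eval (-(k : ℚ)) : ℚ) : ℝ)| * ((∏ m ∈ (sF n).erase k, |-(k : ℝ) + m|)⁻¹) ^ 2

lemma wk_nonneg (n k : ℕ) : 0 ≤ wk n k := by unfold wk; positivity

lemma pa_abs (n k : ℕ) (Q : ℚ[X]) : |((pa (sF n) mF (PF n * Q) k 2 : ℚ) : ℝ)| =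
    wk n k * |((Q.eval (-(k : ℚ)) : ℚ) : ℝ)| := by
  rw [Mea.pa_two, Polynomial.eval_mul]
  push_cast
  rw [abs_mul, abs_mul, Finset.abs_prod]
  have h2 : ∏ m ∈ (sF n).erase k, |((-(k : ℝ) + m)⁻¹) ^ 2| =
      ((∏ m ∈ (sF n).erase k, |-(k : ℝ) + m|)⁻¹) ^ 2 := by
    rw [← Finset.prod_inv_distrib, ← Finset.prod_pow]
    apply Finset.prod_congr rfl
    intro m _
    rw [abs_pow, abs_inv]
  rw [h2]
  unfold wk
  ring

/-- the product of the distances from `k` to `1, …, 2n` -/
lemma prod_zeros {n k : ℕ} (hk : 2 * n < k) : ∏ j ∈ Finset.Icc 1 (2 * n), ((k : ℝ) - j) =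
    ((2 * n).factorial : ℝ) * ((k - 1).choose (2 * n) : ℝ) := by
  have h1 : (k - 1).descFactorial (2 * n) = (2 * n).factorial * (k - 1).choose (2 * n) :=
    Nat.descFactorial_eq_factorial_mul_choose _ _
  have h2 : (((k - 1).descFactorial (2 * n) : ℕ) : ℝ) = ∏ j ∈ Finset.Icc 1 (2 * n), ((k : ℝ) - j) := by
    rw [Nat.descFactorial_eq_prod_range]
    push_cast
    refine Finset.prod_bij (fun i _ => i + 1) ?_ ?_ ?_ ?_
    · intro i hi
      rw [Finset.mem_range] at hi
      rw [Finset.mem_Icc]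
      omega
    · intro a _ b _ h
      omega
    · intro j hj
      rw [Finset.mem_Icc] at hj
      exact ⟨j - 1, by rw [Finset.mem_range]; omega, by omega⟩
    · intro i hi
      rw [Finset.mem_range] at hi
      rw [Nat.cast_sub (by omega), Nat.cast_sub (by omega)]
      push_cast
      ring
  rw [← h2, h1]
  push_cast
  ring

lemma wk_eq {n k : ℕ} (hk : k ∈ sF n) : wk n k =
    ((k - 1).choose (2 * n) : ℝ) ^ 3 * (7 * n * ((7 * n - 1).choose (k - (3 * n + 1)) : ℝ)) ^ 2 := by
  have hk' := Finset.mem_Icc.1 hk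
  have hn : 1 ≤ n := by omega
  unfold wk
  -- the numerator
  have h1 : |(((PF n).eval (-(k : ℚ)) : ℚ) : ℝ)| =
      (((7 * n).factorial : ℕ) : ℝ) ^ 2 * ((k - 1).choose (2 * n) : ℝ) ^ 3 := by
    unfold PF
    rw [Polynomial.eval_mul, Polynomial.eval_C, Polynomial.eval_prod]
    push_cast
    rw [abs_mul, Finset.abs_prod]
    have e1 : ∏ j ∈ Finset.Icc 1 (2 * n), |((((X + C (j : ℚ)) ^ 3 : ℚ[X]).eval (-(k : ℚ)) : ℚ) : ℝ)| =
        (∏ j ∈ Finset.Icc 1 (2 * n), ((k : ℝ) - j)) ^ 3 := by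
      rw [← Finset.prod_pow]
      apply Finset.prod_congr rfl
      intro j hj
      rw [Finset.mem_Icc] at hj
      rw [Polynomial.eval_pow, Polynomial.eval_add, Polynomial.eval_X, Polynomial.eval_C]
      push_cast
      rw [abs_pow]
      congr 1
      have h3 : (j : ℝ) ≤ k := by exact_mod_cast (by omega : j ≤ k)
      rw [abs_of_nonpos (by linarith)]
      ring
    have e2 : |((cF n : ℚ) : ℝ)| = (((7 * n).factorial : ℕ) : ℝ) ^ 2 / (((2 * n).factorial : ℕ) : ℝ) ^ 3 := by
      unfold cF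
      push_cast
      rw [abs_of_nonneg (by positivity)]
    rw [e1, e2, prod_zeros (by omega)]
    have hf : (0 : ℝ) < (((2 * n).factorial : ℕ) : ℝ) := by positivity
    field_simp
  -- the denominator
  set j := k - (3 * n + 1) with hj
  have hjk : k = j + (3 * n + 1) := by omega
  have hjD : j ≤ 7 * n - 1 := by omega
  have h2 : ∏ m ∈ (sF n).erase k, |-(k : ℝ) + m| = (j.factorial : ℝ) * ((7 * n - 1 - j).factorial : ℝ) := by
    rw [← Mea.prod_dist (7 * n - 1) j hjD]
    have hs : (sF n).erase k = ((Finset.range (7 * n - 1 + 1)).erase j).image (fun l => l + (3 * n + 1)) := by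
      ext m
      simp only [Finset.mem_erase, Finset.mem_image, Finset.mem_range, Finset.mem_Icc]
      constructor
      · rintro ⟨h2, h3, h4⟩
        exact ⟨m - (3 * n + 1), ⟨by omega, by omega⟩, by omega⟩
      · rintro ⟨l, ⟨h2, h3⟩, rfl⟩
        exact ⟨by omega, by omega, by omega⟩
    rw [hs, Finset.prod_image (fun a _ b _ h => by omega)]
    apply Finset.prod_congr rfl
    intro l _
    rw [hjk, abs_sub_comm]
    congr 1
    push_cast
    ring
  have h3 : (((7 * n).factorial : ℕ) : ℝ) = 7 * n * ((7 * n - 1).choose j : ℝ) *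
      ((j.factorial : ℝ) * ((7 * n - 1 - j).factorial : ℝ)) := by
    have e : 7 * n = (7 * n - 1) + 1 := by omega
    have h4 := Nat.factorial_succ (7 * n - 1)
    rw [← e] at h4
    have h5 := Nat.choose_mul_factorial_mul_factorial hjD
    rw [h4, ← h5]
    push_cast
    ring
  rw [h1, h2]
  have hf : (0 : ℝ) < (j.factorial : ℝ) * ((7 * n - 1 - j).factorial : ℝ) := by positivity
  rw [h3]
  field_simp

/-- a term of the binomial theorem -/
lemma choose_le (N j : ℕ) (hj : j ≤ N) (a b : ℝ) (ha : 0 < a) (hb : 0 < b) :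
    Real.log (N.choose j : ℝ) ≤ N * Real.log (a + b) - j * Real.log a - (N - j : ℕ) * Real.log b := by
  have h1 : a ^ j * b ^ (N - j) * (N.choose j : ℝ) ≤ (a + b) ^ N := by
    rw [add_pow]
    exact Finset.single_le_sum (f := fun m => a ^ m * b ^ (N - m) * (N.choose m : ℝ))
      (fun m _ => by positivity) (Finset.mem_range.2 (by omega))
  have hc : (0 : ℝ) < N.choose j := by exact_mod_cast Nat.choose_pos hj
  have h2 := Real.log_le_log (by positivity) h1
  rw [Real.log_mul (by positivity) hc.ne', Real.log_mul (by positivity) (by positivity), Real.log_pow,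
    Real.log_pow, Real.log_pow] at h2
  linarith

/-- the bound of the weight in terms of two parameters -/
lemma wk_le {n k : ℕ} (hk : k ∈ sF n) (a b c d : ℝ) (ha : 1 ≤ a) (hb : 1 ≤ b) (hc : 1 ≤ c) (hd : 1 ≤ d) :
    Real.log (wk n k) ≤ 3 * (k * Real.log (a + b) - 2 * n * Real.log a - (k - 2 * n) * Real.log b) +
      2 * (7 * n * Real.log (c + d) - (k - 3 * n) * Real.log c - (10 * n - k) * Real.log d) +
      2 * Real.log (7 * n) := by
  have hk' := Finset.mem_Icc.1 hk
  have hn : 1 ≤ n := by omega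
  have hnr : (1 : ℝ) ≤ n := by exact_mod_cast hn
  rw [wk_eq hk]
  have h1 := choose_le (k - 1) (2 * n) (by omega) a b (by linarith) (by linarith)
  have h2 := choose_le (7 * n - 1) (k - (3 * n + 1)) (by omega) c d (by linarith) (by linarith)
  have p1 : (0 : ℝ) < (k - 1).choose (2 * n) := by exact_mod_cast Nat.choose_pos (by omega)
  have p2 : (0 : ℝ) < (7 * n - 1).choose (k - (3 * n + 1)) := by exact_mod_cast Nat.choose_pos (by omega)
  rw [Real.log_mul (by positivity) (by positivity), Real.log_pow, Real.log_pow, Real.log_mul (by positivity) (by positivity)]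
  have e1 : ((k - 1 : ℕ) : ℝ) = k - 1 := by rw [Nat.cast_sub (by omega)]; simp
  have e2 : ((k - 1 - 2 * n : ℕ) : ℝ) = k - 1 - 2 * n := by
    rw [Nat.cast_sub (by omega), e1]; push_cast; ring
  have e3 : ((7 * n - 1 : ℕ) : ℝ) = 7 * n - 1 := by rw [Nat.cast_sub (by omega)]; push_cast; ring
  have e4 : ((k - (3 * n + 1) : ℕ) : ℝ) = k - 3 * n - 1 := by rw [Nat.cast_sub (by omega)]; push_cast; ring
  have e5 : ((7 * n - 1 - (k - (3 * n + 1)) : ℕ) : ℝ) = 10 * n - k := by
    rw [Nat.cast_sub (by omega), e3, e4]; ring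
  rw [e1, e2] at h1
  rw [e3, e4, e5] at h2
  have l1 : Real.log b ≤ Real.log (a + b) := Real.log_le_log (by linarith) (by linarith)
  have l2 : Real.log c ≤ Real.log (c + d) := Real.log_le_log (by linarith) (by linarith)
  push_cast at h1 h2 ⊢
  linarith

end

end Pool.Agent.Q203.PZ
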