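import Pool.Agent.Q203.PZ.Pole
import Pool.Agent.H383.Z34.G5

/-!
# The certificate at the poles
-/

open Polynomial Pool.Agent.H337R2 Pool.Agent.ZF

namespace Pool.Agent.Q203.PZ

noncomputable section

set_option autoImplicit false

lemma hR_nonneg (i : ℕ) : (0 : ℝ) ≤ ((hR i : ℚ) : ℝ) := by
  rw [hR_eq]; positivity

lemma hR_le (i : ℕ) : ((hR i : ℚ) : ℝ) ≤ 4 := by
  rw [hR_eq]
  have : ((hN i : ℕ) : ℝ) ≤ 4000 := by exact_mod_cast hN_le i
  linarith

/-- the tangent at `x = 8` -/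
lemma node_log {h x : ℝ} (h0 : 0 ≤ h) (h4 : h ≤ 4) (hx : 3 ≤ x) (hx' : x ≤ 10) :
    Real.log (h + x ^ 2) ≤ 6 * Real.log 2 + h / 64 + 16 * (x - 8) / (h + 64) := by
  set H : ℝ := h + 64 with hH
  have hH0 : 0 < H := by linarith
  set s : ℝ := 16 * (x - 8) / H with hs
  have hsH : s * H = 16 * (x - 8) := by rw [hs]; field_simp
  have hs1 : -(5 / 4) ≤ s := by rw [hs, le_div_iff₀ hH0]; nlinarith
  have hs2 : s ≤ 1 / 2 := by rw [hs, div_le_iff₀ hH0]; nlinarith
  have h1 : h + x ^ 2 ≤ H * (1 + s / 4) ^ 4 := by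
    have e : h + x ^ 2 = H * (1 + s) + s ^ 2 * H ^ 2 / 256 := by
      have hx8 : x = 8 + s * H / 16 := by rw [hsH]; ring
      rw [hx8, hH]
      ring
    rw [e]
    have e2 : H * (1 + s / 4) ^ 4 - (H * (1 + s) + s ^ 2 * H ^ 2 / 256) =
        H * s ^ 2 * (3 / 8 + s / 16 + s ^ 2 / 256 - H / 256) := by ring
    have e3 : 0 ≤ 3 / 8 + s / 16 + s ^ 2 / 256 - H / 256 := by nlinarith [sq_nonneg s]
    have e4 : 0 ≤ H * s ^ 2 * (3 / 8 + s / 16 + s ^ 2 / 256 - H / 256) := by positivity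
    linarith
  have hp : 0 < h + x ^ 2 := by positivity
  have hq : 0 < 1 + s / 4 := by linarith
  have h2 := Real.log_le_log hp h1
  rw [Real.log_mul hH0.ne' (by positivity), Real.log_pow] at h2
  have h3 : Real.log (1 + s / 4) ≤ s / 4 := by
    have := Real.log_le_sub_one_of_pos hq
    linarith
  have h5 : Real.log H ≤ 6 * Real.log 2 + h / 64 := by
    have e : H = 2 ^ 6 * (1 + h / 64) := by rw [hH]; ring
    rw [e, Real.log_mul (by norm_num) (by positivity), Real.log_pow]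
    have := Real.log_le_sub_one_of_pos (by positivity : (0 : ℝ) < 1 + h / 64)
    push_cast
    linarith
  push_cast at h2
  linarith

/-- tangent at `8` of the potential of `R` -/
def LW8 (x : ℝ) : ℝ := 3 * (2 * x * Real.log 2 - (x - 2) * Real.log 3) +
  2 * (7 * Real.log 7 - (x - 3) * Real.log 5 - (10 - x) * Real.log 2)

/-- tangent at `7` of the potential of `R` -/
def LW7 (x : ℝ) : ℝ := 3 * (x * Real.log 7 - 2 * Real.log 2 - (x - 2) * Real.log 5) +
  2 * (7 * Real.log 7 - (x - 3) * (2 * Real.log 2) - (10 - x) * Real.log 3)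

/-- the bound for the potential of the nodes -/
def ND (b : ℕ) (x : ℝ) : ℝ := ∑ i ∈ Finset.range b, (sN i : ℝ) / 12 *
  (6 * Real.log 2 + ((hR i : ℚ) : ℝ) / 64 + 16 * (x - 8) / (((hR i : ℚ) : ℝ) + 64))

lemma ND_affine (b : ℕ) (x u v : ℝ) : (v - u) * ND b x = (v - x) * ND b u + (x - u) * ND b v := by
  unfold ND
  rw [Finset.mul_sum, Finset.mul_sum, Finset.mul_sum, ← Finset.sum_add_distrib]
  apply Finset.sum_congr rfl
  intro i _
  have := hR_nonneg i
  field_simp
  ring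

lemma LW8_affine (x u v : ℝ) : (v - u) * LW8 x = (v - x) * LW8 u + (x - u) * LW8 v := by
  unfold LW8; ring

lemma LW7_affine (x u v : ℝ) : (v - u) * LW7 x = (v - x) * LW7 u + (x - u) * LW7 v := by
  unfold LW7; ring

/-- the right side -/
def RB (b : ℕ) : ℝ := 513 / 10 + PhiG - (tN b : ℝ) / 24 * Real.log 2

lemma log7_le : 4 * Real.log 7 ≤ 5 * Real.log 2 + Real.log 3 + 2 * Real.log 5 + 1 / 2400 := G5h.log_seven

lemma end3 (b : ℕ) (hb : b ≤ 8) : LW7 3 + ND b 3 ≤ RB b := by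
  unfold LW7 ND RB PhiG
  rw [Real.log_ten_eq]
  have h7 := log7_le
  have h2 := Real.log_two_gt_d9
  have h2' := Real.log_two_lt_d9
  have h3 := Real.log_three_gt_d9
  have h3' := Real.log_three_lt_d9
  have h5 := Real.log_five_gt_d9
  have h5' := Real.log_five_lt_d9
  interval_cases b <;> simp only [Finset.sum_range_succ, Finset.sum_range_zero, sN, tN, hR, hN] <;>
    push_cast <;> norm_num <;> linarith

lemma end75 (b : ℕ) (hb : b ≤ 8) : LW7 (15 / 2) + ND b (15 / 2) ≤ RB b := by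
  unfold LW7 ND RB PhiG
  rw [Real.log_ten_eq]
  have h7 := log7_le
  have h2 := Real.log_two_gt_d9
  have h2' := Real.log_two_lt_d9
  have h3 := Real.log_three_gt_d9
  have h3' := Real.log_three_lt_d9
  have h5 := Real.log_five_gt_d9
  have h5' := Real.log_five_lt_d9
  interval_cases b <;> simp only [Finset.sum_range_succ, Finset.sum_range_zero, sN, tN, hR, hN] <;>
    push_cast <;> norm_num <;> linarith

lemma end85 (b : ℕ) (hb : b ≤ 8) : LW8 (15 / 2) + ND b (15 / 2) ≤ RB b := by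
  unfold LW8 ND RB PhiG
  rw [Real.log_ten_eq]
  have h2 := Real.log_two_gt_d9
  have h2' := Real.log_two_lt_d9
  have h3 := Real.log_three_gt_d9
  have h3' := Real.log_three_lt_d9
  have h5 := Real.log_five_gt_d9
  have h5' := Real.log_five_lt_d9
  interval_cases b <;> simp only [Finset.sum_range_succ, Finset.sum_range_zero, sN, tN, hR, hN] <;>
    push_cast <;> norm_num <;> linarith

lemma end10 (b : ℕ) (hb : b ≤ 8) : LW8 10 + ND b 10 ≤ RB b := by
  unfold LW8 ND RB PhiG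
  rw [Real.log_ten_eq]
  have h2 := Real.log_two_gt_d9
  have h2' := Real.log_two_lt_d9
  have h3 := Real.log_three_gt_d9
  have h3' := Real.log_three_lt_d9
  have h5 := Real.log_five_gt_d9
  have h5' := Real.log_five_lt_d9
  interval_cases b <;> simp only [Finset.sum_range_succ, Finset.sum_range_zero, sN, tN, hR, hN] <;>
    push_cast <;> norm_num <;> linarith

theorem pole7 (b : ℕ) (hb : b ≤ 8) (x : ℝ) (h1 : 3 ≤ x) (h2 : x ≤ 15 / 2) : LW7 x + ND b x ≤ RB b := by
  have a1 := ND_affine b x 3 (15 / 2)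
  have a2 := LW7_affine x 3 (15 / 2)
  have e1 := mul_le_mul_of_nonneg_left (end3 b hb) (by linarith : 0 ≤ 15 / 2 - x)
  have e2 := mul_le_mul_of_nonneg_left (end75 b hb) (by linarith : 0 ≤ x - 3)
  nlinarith

theorem pole8 (b : ℕ) (hb : b ≤ 8) (x : ℝ) (h1 : 15 / 2 ≤ x) (h2 : x ≤ 10) : LW8 x + ND b x ≤ RB b := by
  have a1 := ND_affine b x (15 / 2) 10
  have a2 := LW8_affine x (15 / 2) 10
  have e1 := mul_le_mul_of_nonneg_left (end85 b hb) (by linarith : 0 ≤ 10 - x)
  have e2 := mul_le_mul_of_nonneg_left (end10 b hb) (by linarith : 0 ≤ x - 15 / 2)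
  nlinarith

end

end Pool.Agent.Q203.PZ
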