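import Pool.Agent.Q203.PZ.PoleC

/-!
# The corner inequalities at the poles
-/

open Polynomial Pool.Agent.H337R2 Pool.Agent.ZF

namespace Pool.Agent.Q203.PZ

noncomputable section

set_option autoImplicit false

open G4 (Lin Lin_monic Lin_deg)

lemma aeval_pole (k : ℕ) (P : ℚ[X]) : ‖aeval (-(k : ℂ)) P‖ = |((P.eval (-(k : ℚ)) : ℚ) : ℝ)| := by
  have e : aeval (-(k : ℂ)) P = (((P.eval (-(k : ℚ)) : ℚ) : ℝ) : ℂ) := by
    have h1 : (-(k : ℂ)) = algebraMap ℚ ℂ (-(k : ℚ)) := by simp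
    rw [h1, Polynomial.aeval_algebraMap_apply]
    simp
  rw [e, Complex.norm_real, Real.norm_eq_abs]

lemma Lin_pole {n k : ℕ} (hk : k ∈ sF n) : ‖aeval (-(k : ℂ)) Lin‖ ^ 2 ≤ (10 * (n : ℝ)) ^ 2 := by
  have hk' := Finset.mem_Icc.1 hk
  rw [aeval_pole]
  unfold G4.Lin
  simp only [eval_add, eval_X, eval_C]
  push_cast
  have h1 : (1 : ℝ) ≤ k := by exact_mod_cast (by omega : 1 ≤ k)
  have h2 : (k : ℝ) ≤ 10 * n := by exact_mod_cast hk'.2
  apply pow_le_pow_left₀ (abs_nonneg _)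
  rw [abs_le]
  constructor <;> linarith

lemma QB_pole {n k : ℕ} (hk : k ∈ sF n) (i : ℕ) :
    ‖aeval (-(k : ℂ)) (QB n i)‖ ≤ (n : ℝ) ^ 2 * (((hR i : ℚ) : ℝ) + ((k : ℝ) / n) ^ 2) := by
  have hk' := Finset.mem_Icc.1 hk
  have hn : (0 : ℝ) < n := by exact_mod_cast (by omega : 0 < n)
  rw [aeval_pole]
  unfold QB qG
  simp only [eval_add, eval_X, eval_C, eval_pow]
  push_cast
  have h1 : (1 : ℝ) ≤ k := by exact_mod_cast (by omega : 1 ≤ k)
  have h3 := hR_nonneg i
  have e : (n : ℝ) ^ 2 * (((hR i : ℚ) : ℝ) + ((k : ℝ) / n) ^ 2) = ((hR i : ℚ) : ℝ) * (n : ℝ) ^ 2 + (k : ℝ) ^ 2 := by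
    field_simp
  rw [e]
  have h4 : 0 ≤ ((hR i : ℚ) : ℝ) * (n : ℝ) ^ 2 := by positivity
  rw [abs_of_nonneg (by positivity)]
  nlinarith

/-- the tangent bound for the node -/
def tau (i : ℕ) (x : ℝ) : ℝ := 6 * Real.log 2 + ((hR i : ℚ) : ℝ) / 64 + 16 * (x - 8) / (((hR i : ℚ) : ℝ) + 64)

lemma ND_eq (b : ℕ) (x : ℝ) : ND b x = ∑ i ∈ Finset.range b, (sN i : ℝ) / 12 * tau i x := rfl

lemma prod_pole {n N r k : ℕ} (hn : n = 24 * N + r) (hk : k ∈ sF n) (b : ℕ) :
    ∏ i ∈ Finset.range b, (‖aeval (-(k : ℂ)) (QB n i)‖ ^ 2) ^ (sN i * N) ≤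
      Real.exp (4 * (ho b * N) * Real.log n + n * ND b ((k : ℝ) / n)) := by
  have hk' := Finset.mem_Icc.1 hk
  have hn0 : (0 : ℝ) < n := by exact_mod_cast (by omega : 0 < n)
  have h24 := cast_ge hn
  set x : ℝ := (k : ℝ) / n with hx
  have hx1 : 3 ≤ x := by
    rw [hx, le_div_iff₀ hn0]
    exact_mod_cast (by omega : 3 * n ≤ k)
  have hx2 : x ≤ 10 := by
    rw [hx, div_le_iff₀ hn0]
    exact_mod_cast hk'.2
  have hterm : ∀ i ∈ Finset.range b, (‖aeval (-(k : ℂ)) (QB n i)‖ ^ 2) ^ (sN i * N) ≤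
      Real.exp (4 * (sN i * N) * Real.log n + n * ((sN i : ℝ) / 12 * tau i x)) := by
    intro i _
    have h1 := QB_pole hk i
    have h0 := hR_nonneg i
    have h2 := node_log h0 (hR_le i) hx1 hx2
    have hp : 0 < ((hR i : ℚ) : ℝ) + x ^ 2 := by positivity
    have h3 : ((hR i : ℚ) : ℝ) + x ^ 2 ≤ Real.exp (tau i x) := by
      rw [← Real.log_le_iff_le_exp hp]
      exact h2
    have htau : 0 ≤ tau i x := by
      refine le_trans ?_ h2
      apply Real.log_nonneg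
      nlinarith
    have h4 : ‖aeval (-(k : ℂ)) (QB n i)‖ ≤ Real.exp (2 * Real.log n + tau i x) := by
      refine h1.trans ?_
      rw [Real.exp_add]
      have e1 : Real.exp (2 * Real.log n) = (n : ℝ) ^ 2 := by
        have : (2 : ℝ) * Real.log n = ((2 : ℕ) : ℝ) * Real.log n := by norm_num
        rw [this, Real.exp_nat_mul, Real.exp_log hn0]
      rw [e1]
      exact mul_le_mul_of_nonneg_left h3 (by positivity)
    rw [← pow_mul]
    refine (pow_le_pow_left₀ (norm_nonneg _) h4 _).trans ?_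
    rw [← Real.exp_nat_mul]
    apply Real.exp_le_exp.2
    push_cast
    have hs : (0 : ℝ) ≤ sN i := Nat.cast_nonneg _
    have h5 : (sN i : ℝ) * tau i x * (24 * N) ≤ (sN i : ℝ) * tau i x * n :=
      mul_le_mul_of_nonneg_left h24 (by positivity)
    nlinarith
  refine (Finset.prod_le_prod (fun i _ => by positivity) hterm).trans ?_
  rw [← Real.exp_sum, Finset.sum_add_distrib, ← Finset.mul_sum, ← ND_eq]
  apply Real.exp_le_exp.2
  apply le_of_eq
  congr 1
  unfold ho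
  push_cast
  rw [Finset.sum_mul, Finset.mul_sum, Finset.sum_mul]

lemma wk_pos {n k : ℕ} (hk : k ∈ sF n) : 0 < wk n k := by
  have hk' := Finset.mem_Icc.1 hk
  have hn0 : (0 : ℝ) < n := by exact_mod_cast (by omega : 0 < n)
  rw [wk_eq hk]
  have p1 : (0 : ℝ) < (k - 1).choose (2 * n) := by exact_mod_cast Nat.choose_pos (by omega)
  have p2 : (0 : ℝ) < (7 * n - 1).choose (k - (3 * n + 1)) := by exact_mod_cast Nat.choose_pos (by omega)
  positivity

/-- the potential at a pole -/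
lemma wk_ND {n k : ℕ} (hk : k ∈ sF n) {b : ℕ} (hb : b ≤ 8) :
    Real.log (wk n k) + n * ND b ((k : ℝ) / n) ≤ n * RB b + 2 * Real.log (7 * n) := by
  have hk' := Finset.mem_Icc.1 hk
  have hn0 : (0 : ℝ) < n := by exact_mod_cast (by omega : 0 < n)
  set x : ℝ := (k : ℝ) / n with hx
  have hkx : (k : ℝ) = n * x := by rw [hx]; field_simp
  have hx1 : 3 ≤ x := by
    rw [hx, le_div_iff₀ hn0]
    exact_mod_cast (by omega : 3 * n ≤ k)
  have hx2 : x ≤ 10 := by
    rw [hx, div_le_iff₀ hn0]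
    exact_mod_cast hk'.2
  have l4 : Real.log 4 = 2 * Real.log 2 := by
    rw [show (4 : ℝ) = 2 ^ 2 by norm_num, Real.log_pow]
    norm_num
  rcases le_total x (15 / 2) with h | h
  · have h1 := wk_le hk 2 5 4 3 (by norm_num) (by norm_num) (by norm_num) (by norm_num)
    have h2 := mul_le_mul_of_nonneg_left (pole7 b hb x hx1 h) hn0.le
    norm_num at h1
    rw [l4, hkx] at h1
    unfold LW7 at h2
    nlinarith
  · have h1 := wk_le hk 1 3 5 2 (by norm_num) (by norm_num) (by norm_num) (by norm_num)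
    have h2 := mul_le_mul_of_nonneg_left (pole8 b hb x h hx2) hn0.le
    norm_num at h1
    rw [l4, hkx] at h1
    unfold LW8 at h2
    nlinarith

/-- **the corners at the poles** -/
theorem corner_pole {C : ℝ} {K : ℕ} (hC : 1 ≤ C) {n N r k : ℕ} (hn : n = 24 * N + r) (hk : k ∈ sF n)
    {b : ℕ} (hb : b ≤ 8) :
    wk n k * Real.exp (-(513 / 10 * n)) * (10 * (n : ℝ)) ^ 184 *
      ∏ i ∈ Finset.range b, (‖aeval (-(k : ℂ)) (QB n i)‖ ^ 2) ^ (sN i * N) ≤
    Real.exp (la (49 * 10 ^ 184 * C) (K + 186) n N b) := by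
  have hk' := Finset.mem_Icc.1 hk
  have hn0 : (0 : ℝ) < n := by exact_mod_cast (by omega : 0 < n)
  have hn1 : (1 : ℝ) ≤ n := by exact_mod_cast (by omega : 1 ≤ n)
  have h24 := cast_ge hn
  have hp := prod_pole hn hk b
  have hw := wk_ND hk hb
  have e1 : wk n k = Real.exp (Real.log (wk n k)) := (Real.exp_log (wk_pos hk)).symm
  have e2 : (10 * (n : ℝ)) ^ 184 = Real.exp (184 * Real.log (10 * n)) := by
    have : (184 : ℝ) * Real.log (10 * n) = ((184 : ℕ) : ℝ) * Real.log (10 * n) := by norm_num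
    rw [this, Real.exp_nat_mul, Real.exp_log (by positivity)]
  refine (mul_le_mul_of_nonneg_left hp (by have := wk_nonneg n k; positivity)).trans ?_
  rw [e1, e2, ← Real.exp_add, ← Real.exp_add, ← Real.exp_add]
  apply Real.exp_le_exp.2
  unfold la
  have hl : 0 ≤ Real.log n := Real.log_natCast_nonneg n
  have hl2 : 0 ≤ Real.log 2 := Real.log_nonneg (by norm_num)
  have l1 : Real.log (49 * 10 ^ 184 * C) = 2 * Real.log 7 + 184 * Real.log 10 + Real.log C := by
    rw [Real.log_mul (by positivity) (by linarith), Real.log_mul (by norm_num) (by positivity), Real.log_pow,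
      show (49 : ℝ) = 7 ^ 2 by norm_num, Real.log_pow]
    push_cast
    ring
  have l2 : Real.log (7 * (n : ℝ)) = Real.log 7 + Real.log n := Real.log_mul (by norm_num) hn0.ne'
  have l3 : Real.log (10 * (n : ℝ)) = Real.log 10 + Real.log n := Real.log_mul (by norm_num) hn0.ne'
  have l4 : 0 ≤ Real.log C := Real.log_nonneg hC
  have l5 : 0 ≤ (K : ℝ) * Real.log n := by positivity
  rw [l1, l3]
  rw [l2] at hw
  unfold RB at hw
  have ht : (tN b : ℝ) * Real.log 2 * (24 * N) ≤ (tN b : ℝ) * Real.log 2 * n :=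
    mul_le_mul_of_nonneg_left h24 (by positivity)
  push_cast
  nlinarith

end

end Pool.Agent.Q203.PZ
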