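import Pool.Agent.Q203.PZ.Cert
import Pool.Agent.Q203.PZ.G1
import Pool.Agent.H383.Z34.G4

/-!
# The rows: polynomials, positions, interpolation between corners
-/

open Polynomial Pool.Agent.H337R2 Pool.Agent.ZF

namespace Pool.Agent.Q203.PZ

noncomputable section

set_option autoImplicit false

open G4 (Lin Lin_monic Lin_deg qG_aux interp sum_k tau_block)

/-- the node polynomials -/
def QB (n b : ℕ) : ℚ[X] := qG n (hR b)

lemma QB_monic (n b : ℕ) : (QB n b).Monic := (qG_aux _ _).1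

lemma QB_deg (n b : ℕ) : (QB n b).natDegree = 2 := (qG_aux _ _).2

/-- half the offsets -/
def ho (b : ℕ) : ℕ := ∑ i ∈ Finset.range b, sN i

lemma ho_succ (b : ℕ) : ho (b + 1) = ho b + sN b := by
  unfold ho; rw [Finset.sum_range_succ]

lemma ho_zero : ho 0 = 0 := by decide

lemma ho_eight : ho 8 = 48 := by decide

lemma sN_pos (b : ℕ) : 0 < sN b := by
  unfold sN
  split <;> norm_num

/-- the monic polynomials -/
def PA (n N b j : ℕ) : ℚ[X] :=
  (∏ i ∈ Finset.range b, QB n i ^ (sN i * N)) *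
    (if b = 8 then Lin ^ j else QB n b ^ (j / 2) * Lin ^ (j % 2))

lemma PA_monic (n N b j : ℕ) : (PA n N b j).Monic := by
  unfold PA
  refine (monic_prod_of_monic _ _ fun i _ => (QB_monic n i).pow _).mul ?_
  split_ifs
  · exact Lin_monic.pow _
  · exact ((QB_monic n b).pow _).mul (Lin_monic.pow _)

lemma PA_deg (n N b j : ℕ) : (PA n N b j).natDegree = 2 * (ho b * N) + j := by
  unfold PA
  have h1 : (∏ i ∈ Finset.range b, QB n i ^ (sN i * N)).Monic :=
    monic_prod_of_monic _ _ fun i _ => (QB_monic n i).pow _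
  have h4 : ∀ i ∈ Finset.range b, (QB n i ^ (sN i * N)).natDegree = sN i * (2 * N) := by
    intro i _
    rw [(QB_monic n i).natDegree_pow, QB_deg]; ring
  have h5 : (∏ i ∈ Finset.range b, QB n i ^ (sN i * N)).natDegree = 2 * (ho b * N) := by
    rw [natDegree_prod_of_monic _ _ fun i _ => (QB_monic n i).pow _, Finset.sum_congr rfl h4,
      ← Finset.sum_mul]
    unfold ho
    ring
  split_ifs with hb
  · rw [h1.natDegree_mul (Lin_monic.pow _), h5, Lin_monic.natDegree_pow, Lin_deg, mul_one]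
  · have h2 : (QB n b ^ (j / 2)).Monic := (QB_monic n b).pow _
    have h3 : (Lin ^ (j % 2)).Monic := Lin_monic.pow _
    rw [h1.natDegree_mul (h2.mul h3), h2.natDegree_mul h3, h5, (QB_monic n b).natDegree_pow,
      Lin_monic.natDegree_pow, QB_deg, Lin_deg]
    have : j / 2 * 2 + j % 2 * 1 = j := by omega
    rw [this]

/-- the value of `|P|²` at a point -/
lemma PA_norm (n N b j : ℕ) (z : ℂ) :
    ‖aeval z (PA n N b j)‖ ^ 2 =
      (∏ i ∈ Finset.range b, (‖aeval z (QB n i)‖ ^ 2) ^ (sN i * N)) *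
        (if b = 8 then (‖aeval z Lin‖ ^ 2) ^ j else
          (‖aeval z (QB n b)‖ ^ 2) ^ (j / 2) * (‖aeval z Lin‖ ^ 2) ^ (j % 2)) := by
  unfold PA
  rw [map_mul, map_prod, norm_mul, norm_prod, mul_pow, ← Finset.prod_pow]
  congr 1
  · apply Finset.prod_congr rfl
    intro i _
    rw [map_pow, norm_pow, ← pow_mul, ← pow_mul, mul_comm]
  · split_ifs
    · rw [map_pow, norm_pow, ← pow_mul, ← pow_mul, mul_comm]
    · rw [map_mul, norm_mul, mul_pow, map_pow, norm_pow, ← pow_mul, ← pow_mul, mul_comm 2, map_pow,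
        norm_pow, ← pow_mul, ← pow_mul, mul_comm 2]

/-! ### positions -/

/-- the stage of a row -/
def stg (N i : ℕ) : ℕ := Nat.findGreatest (fun b => 2 * (ho b * N) ≤ i) 8

/-- position of a row -/
def loc (N i : ℕ) : ℕ × ℕ := (stg N i, i - 2 * (ho (stg N i) * N))

lemma stg_le (N i : ℕ) : stg N i ≤ 8 := Nat.findGreatest_le 8

lemma stg_spec (N i : ℕ) : 2 * (ho (stg N i) * N) ≤ i := by
  have h0 : 2 * (ho 0 * N) ≤ i := by rw [ho_zero]; omega
  exact Nat.findGreatest_spec (P := fun b => 2 * (ho b * N) ≤ i) (Nat.zero_le 8) h0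

lemma stg_lt {N i : ℕ} (h : stg N i < 8) : i < 2 * (ho (stg N i + 1) * N) := by
  by_contra hc
  push Not at hc
  exact Nat.findGreatest_is_greatest (P := fun b => 2 * (ho b * N) ≤ i) (Nat.lt_succ_self _) h hc

lemma ho_mono {a b : ℕ} (h : a ≤ b) : ho a ≤ ho b := by
  unfold ho
  exact Finset.sum_le_sum_of_subset (Finset.range_subset_range.2 h)

lemma stg_eq {N b j : ℕ} (hb : b < 8) (hj : j < 2 * (sN b * N)) : stg N (2 * (ho b * N) + j) = b := by
  apply le_antisymm
  · by_contra hc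
    push Not at hc
    have h1 := stg_spec N (2 * (ho b * N) + j)
    have h2 : ho (b + 1) * N ≤ ho (stg N (2 * (ho b * N) + j)) * N := Nat.mul_le_mul_right _ (ho_mono hc)
    rw [ho_succ, add_mul] at h2
    omega
  · exact Nat.le_findGreatest hb.le (by omega)

lemma stg_eq8 {N j : ℕ} : stg N (2 * (ho 8 * N) + j) = 8 := by
  apply le_antisymm (stg_le _ _)
  exact Nat.le_findGreatest le_rfl (by omega)

/-- the condition on the position -/
def Pos (N b j : ℕ) : Prop := (b ≤ 7 ∧ j < 2 * (sN b * N)) ∨ (b = 8 ∧ j ≤ 92)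

lemma loc_spec {N r i : ℕ} (hr : r < 24) (hi : i < 96 * N + 4 * r) :
    (2 * (ho (loc N i).1 * N) + (loc N i).2 = i) ∧ Pos N (loc N i).1 (loc N i).2 := by
  have h1 := stg_spec N i
  refine ⟨by unfold loc; dsimp only; omega, ?_⟩
  unfold loc Pos
  dsimp only
  rcases Nat.lt_or_ge (stg N i) 8 with h | h
  · left
    refine ⟨by omega, ?_⟩
    have h2 := stg_lt h
    rw [ho_succ, add_mul] at h2
    omega
  · right
    have h8 : stg N i = 8 := le_antisymm (stg_le _ _) h
    refine ⟨h8, ?_⟩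
    rw [h8, ho_eight]
    omega

lemma sum_stage (N : ℕ) (f : ℕ → ℕ → ℝ) : ∀ b : ℕ, b ≤ 8 →
    ∑ i ∈ Finset.range (2 * (ho b * N)), f (loc N i).1 (loc N i).2 =
      ∑ c ∈ Finset.range b, ∑ j ∈ Finset.range (2 * (sN c * N)), f c j := by
  intro b
  induction b with
  | zero => intro _; simp [ho_zero]
  | succ b ih =>
    intro hb
    have e : 2 * (ho (b + 1) * N) = 2 * (ho b * N) + 2 * (sN b * N) := by
      rw [ho_succ, add_mul]; ring
    rw [e, Finset.sum_range_add, ih (by omega), Finset.sum_range_succ]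
    congr 1
    apply Finset.sum_congr rfl
    intro j hj
    rw [Finset.mem_range] at hj
    unfold loc
    dsimp only
    rw [stg_eq (by omega) hj, Nat.add_sub_cancel_left]

lemma sum_loc (N r : ℕ) (f : ℕ → ℕ → ℝ) :
    ∑ i ∈ Finset.range (96 * N + 4 * r), f (loc N i).1 (loc N i).2 =
      (∑ b ∈ Finset.range 8, ∑ j ∈ Finset.range (2 * (sN b * N)), f b j) +
        ∑ j ∈ Finset.range (4 * r), f 8 j := by
  have e : 96 * N + 4 * r = 2 * (ho 8 * N) + 4 * r := by rw [ho_eight]; ring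
  rw [e, Finset.sum_range_add, sum_stage N f 8 le_rfl]
  congr 1
  apply Finset.sum_congr rfl
  intro j _
  unfold loc
  dsimp only
  rw [stg_eq8, Nat.add_sub_cancel_left]

/-! ### interpolation -/

/-- the exponent of a row from the exponents of the corners -/
def alr (la : ℕ → ℝ) (N b j : ℕ) : ℝ :=
  if b = 8 then la 8 else
    (1 - ((j / 2 : ℕ) : ℝ) / ((sN b * N : ℕ) : ℝ)) * la b +
      ((j / 2 : ℕ) : ℝ) / ((sN b * N : ℕ) : ℝ) * la (b + 1)

/-- the bound of a row at a point -/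
lemma row_bound {N : ℕ} (hN : 1 ≤ N) {T D l : ℝ} (hT : 0 ≤ T) (hl : 0 ≤ l) (hD : ∀ j : ℕ, j ≤ 92 → l ^ j ≤ D)
    (q : ℕ → ℝ) (hq : ∀ i, 0 ≤ q i) (la : ℕ → ℝ)
    (hc : ∀ b, b ≤ 8 → T * D * ∏ i ∈ Finset.range b, q i ^ (sN i * N) ≤ Real.exp (la b))
    {b j : ℕ} (hp : Pos N b j) :
    T * ((∏ i ∈ Finset.range b, q i ^ (sN i * N)) *
      (if b = 8 then l ^ j else q b ^ (j / 2) * l ^ (j % 2))) ≤ Real.exp (alr la N b j) := by
  have hD0 : 0 ≤ D := by
    have := hD 0 (by omega)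
    rw [pow_zero] at this
    linarith
  have hF : ∀ b, 0 ≤ ∏ i ∈ Finset.range b, q i ^ (sN i * N) := fun b =>
    Finset.prod_nonneg fun i _ => pow_nonneg (hq i) _
  rcases hp with ⟨hb, hj⟩ | ⟨rfl, hj⟩
  · have hb8 : b ≠ 8 := by omega
    have hk : j / 2 ≤ sN b * N := by omega
    have hS : 0 < sN b * N := Nat.mul_pos (sN_pos b) hN
    have c1 := hc b (by omega)
    have c2 := hc (b + 1) (by omega)
    rw [Finset.prod_range_succ, ← mul_assoc] at c2
    have h3 := interp (mul_nonneg (mul_nonneg hT hD0) (hF b)) (hq b) hS hk c1 c2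
    unfold alr
    rw [if_neg hb8, if_neg hb8]
    refine le_trans ?_ h3
    have h4 : l ^ (j % 2) ≤ D := hD _ (by omega)
    have h5 : 0 ≤ q b ^ (j / 2) := pow_nonneg (hq b) _
    calc T * ((∏ i ∈ Finset.range b, q i ^ (sN i * N)) * (q b ^ (j / 2) * l ^ (j % 2)))
        = T * (∏ i ∈ Finset.range b, q i ^ (sN i * N)) * q b ^ (j / 2) * l ^ (j % 2) := by ring
      _ ≤ T * (∏ i ∈ Finset.range b, q i ^ (sN i * N)) * q b ^ (j / 2) * D :=
          mul_le_mul_of_nonneg_left h4 (mul_nonneg (mul_nonneg hT (hF b)) h5)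
      _ = _ := by ring
  · have c1 := hc 8 le_rfl
    unfold alr
    rw [if_pos rfl, if_pos rfl]
    refine le_trans ?_ c1
    calc T * ((∏ i ∈ Finset.range 8, q i ^ (sN i * N)) * l ^ j)
        = T * (∏ i ∈ Finset.range 8, q i ^ (sN i * N)) * l ^ j := by ring
      _ ≤ T * (∏ i ∈ Finset.range 8, q i ^ (sN i * N)) * D :=
          mul_le_mul_of_nonneg_left (hD j hj) (mul_nonneg hT (hF 8))
      _ = _ := by ring

/-- logarithm of the corner bound -/
def la (C : ℝ) (K n N b : ℕ) : ℝ :=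
  Real.log C + K * Real.log n + n * PhiG + 4 * (ho b * N) * Real.log n - tN b * N * Real.log 2

/-- the part of the exponent with `log 2` -/
def ta (N b j : ℕ) : ℝ := if b = 8 then 0 else
  N * Real.log 2 * ((tN b : ℝ) + ((j / 2 : ℕ) : ℝ) / ((sN b * N : ℕ) : ℝ) * ((tN (b + 1) : ℝ) - tN b))

lemma al_le {C : ℝ} {K n N b j i : ℕ} (hN : 1 ≤ N) (hp : Pos N b j)
    (hi : 2 * (ho b * N) + j = i) :
    alr (la C K n N) N b j ≤ Real.log C + K * Real.log n + n * PhiG + 2 * (i : ℝ) * Real.log n -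
      ta N b j := by
  have hl : 0 ≤ Real.log n := Real.log_natCast_nonneg n
  have hl2 : 0 ≤ Real.log 2 := Real.log_nonneg (by norm_num)
  rcases hp with ⟨hb, hj⟩ | ⟨rfl, hj⟩
  · have hb8 : b ≠ 8 := by omega
    unfold alr ta
    rw [if_neg hb8, if_neg hb8]
    have hs : (sN b : ℝ) ≠ 0 := by exact_mod_cast (sN_pos b).ne'
    have hN' : (N : ℝ) ≠ 0 := by exact_mod_cast (by omega : N ≠ 0)
    have e : (1 - ((j / 2 : ℕ) : ℝ) / ((sN b * N : ℕ) : ℝ)) * la C K n N b +
        ((j / 2 : ℕ) : ℝ) / ((sN b * N : ℕ) : ℝ) * la C K n N (b + 1) =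
        Real.log C + K * Real.log n + n * PhiG +
        2 * ((2 * (ho b * N) : ℕ) + 2 * ((j / 2 : ℕ) : ℝ)) * Real.log n -
        N * Real.log 2 * ((tN b : ℝ) + ((j / 2 : ℕ) : ℝ) / ((sN b * N : ℕ) : ℝ) *
          ((tN (b + 1) : ℝ) - tN b)) := by
      unfold la
      rw [ho_succ]
      push_cast
      field_simp
      ring
    rw [e]
    have h1 : 2 * (((2 * (ho b * N) : ℕ) : ℝ) + 2 * ((j / 2 : ℕ) : ℝ)) * Real.log n ≤
        2 * (i : ℝ) * Real.log n := by
      apply mul_le_mul_of_nonneg_right _ hl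
      have h2 : ((2 * (ho b * N) + 2 * (j / 2) : ℕ) : ℝ) ≤ (i : ℝ) := by
        exact_mod_cast (by omega : 2 * (ho b * N) + 2 * (j / 2) ≤ i)
      push_cast at h2 ⊢
      linarith
    linarith
  · unfold alr ta la
    rw [if_pos rfl, if_pos rfl]
    have h1 : 4 * ((ho 8 : ℝ) * N) * Real.log n ≤ 2 * (i : ℝ) * Real.log n := by
      apply mul_le_mul_of_nonneg_right _ hl
      have : 4 * (ho 8 * N) ≤ 2 * i := by omega
      exact_mod_cast this
    have h2 : 0 ≤ (tN 8 : ℝ) * N * Real.log 2 := by positivity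
    linarith

lemma sum_ta {N : ℕ} (hN : 1 ≤ N) (r : ℕ) :
    ∑ i ∈ Finset.range (96 * N + 4 * r), ta N (loc N i).1 (loc N i).2 =
      (8208 * N - 16) * (N * Real.log 2) := by
  rw [sum_loc N r (ta N)]
  have h3 : ∑ j ∈ Finset.range (4 * r), ta N 8 j = 0 := by
    apply Finset.sum_eq_zero
    intro j _
    unfold ta
    rw [if_pos rfl]
  have hb : ∀ b ∈ Finset.range 8, ∑ j ∈ Finset.range (2 * (sN b * N)), ta N b j =
      N * Real.log 2 * (((sN b * N : ℕ) : ℝ) * ((tN b : ℝ) + tN (b + 1)) - ((tN (b + 1) : ℝ) - tN b)) := by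
    intro b hb
    rw [Finset.mem_range] at hb
    rw [← tau_block _ (Nat.mul_pos (sN_pos b) hN), Finset.mul_sum]
    apply Finset.sum_congr rfl
    intro j _
    unfold ta
    rw [if_neg (by omega)]
  rw [h3, Finset.sum_congr rfl hb]
  simp only [Finset.sum_range_succ, Finset.sum_range_zero, sN, tN]
  push_cast
  ring

lemma sum_al {C : ℝ} {K n N r : ℕ} (hN : 1 ≤ N) (hr : r < 24) :
    ∑ i ∈ Finset.range (96 * N + 4 * r), alr (la C K n N) N (loc N i).1 (loc N i).2 ≤
      (96 * N + 4 * r : ℕ) * (Real.log C + K * Real.log n + n * PhiG) +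
      ((96 * N + 4 * r : ℕ) : ℝ) ^ 2 * Real.log n - (8208 * N - 16) * (N * Real.log 2) := by
  have h1 : ∀ i ∈ Finset.range (96 * N + 4 * r), alr (la C K n N) N (loc N i).1 (loc N i).2 ≤
      (Real.log C + K * Real.log n + n * PhiG) + 2 * (i : ℝ) * Real.log n -
      ta N (loc N i).1 (loc N i).2 := by
    intro i hi
    rw [Finset.mem_range] at hi
    obtain ⟨h2, h3⟩ := loc_spec hr hi
    exact al_le hN h3 h2
  have h2 := Finset.sum_le_sum h1
  rw [Finset.sum_sub_distrib, Finset.sum_add_distrib, Finset.sum_const, Finset.card_range,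
    nsmul_eq_mul, sum_ta hN r] at h2
  have hl : 0 ≤ Real.log n := Real.log_natCast_nonneg n
  have h3 : ∑ i ∈ Finset.range (96 * N + 4 * r), 2 * (i : ℝ) * Real.log n ≤
      ((96 * N + 4 * r : ℕ) : ℝ) ^ 2 * Real.log n := by
    have e1 : ∑ i ∈ Finset.range (96 * N + 4 * r), 2 * (i : ℝ) * Real.log n =
        (2 * ∑ i ∈ Finset.range (96 * N + 4 * r), (i : ℝ)) * Real.log n := by
      rw [← Finset.sum_mul, ← Finset.mul_sum]
    rw [e1, sum_k]
    apply mul_le_mul_of_nonneg_right _ hl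
    have : (0 : ℝ) ≤ ((96 * N + 4 * r : ℕ) : ℝ) := Nat.cast_nonneg _
    nlinarith
  linarith

end

end Pool.Agent.Q203.PZ
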